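import Pool.Agent.H843Z.CJ.St

open scoped Kronecker Matrix
open Matrix Finset

namespace Pool.Agent.H843Z.CJ

noncomputable section

variable {N : ℕ} {a : ℂ}

/-- sum over all lists of length `n` -/
def sumL : ℕ → (List (Fin N) → ℂ) → ℂ
  | 0, f => f []
  | n + 1, f => ∑ k, sumL n (fun l => f (k :: l))

lemma sumL_congr {n : ℕ} {f g : List (Fin N) → ℂ} (h : ∀ l, l.length = n → f l = g l) :
    sumL n f = sumL n g := by
  induction n generalizing f g with
  | zero => exact h [] rfl
  | succ n ih =>
    simp only [sumL]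
    exact sum_congr rfl fun k _ => ih fun l hl => h _ (by simp [hl])

lemma sumL_sum {ι : Type} (s : Finset ι) (n : ℕ) (f : ι → List (Fin N) → ℂ) :
    sumL n (fun l => ∑ x ∈ s, f x l) = ∑ x ∈ s, sumL n (f x) := by
  induction n generalizing f with
  | zero => rfl
  | succ n ih =>
    simp only [sumL]
    rw [sum_comm]
    exact sum_congr rfl fun k _ => ih (fun x l => f x (k :: l))

lemma sumL_append (p q : ℕ) (f : List (Fin N) → ℂ) :
    sumL (p + q) f = sumL p (fun l₁ => sumL q (fun l₂ => f (l₁ ++ l₂))) := by
  induction p generalizing f with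
  | zero => simp [sumL]
  | succ p ih =>
    have : p + 1 + q = (p + q) + 1 := by omega
    rw [this]
    simp only [sumL]
    exact sum_congr rfl fun k _ => ih _

lemma sumL_mid (p q : ℕ) (f : List (Fin N) → ℂ) :
    sumL (p + 2 + q) f =
      sumL p (fun l₁ => sumL q (fun l₂ => ∑ k, ∑ m, f (l₁ ++ k :: m :: l₂))) := by
  have : p + 2 + q = p + (q + 1 + 1) := by omega
  rw [this, sumL_append]
  refine sumL_congr fun l₁ _ => ?_
  simp only [sumL, sumL_sum]

lemma atPos_append (T : St N → St N) (h : St N) (l₁ r : List (Fin N)) :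
    atPos l₁.length T h (l₁ ++ r) = T (fun r' => h (l₁ ++ r')) r := by
  induction l₁ generalizing h with
  | nil => rfl
  | cons k l ih => exact ih (fun r' => h (k :: r'))

lemma atPos_append' (T : St N → St N) (h : St N) {p : ℕ} {l₁ : List (Fin N)}
    (hl : l₁.length = p) (r : List (Fin N)) :
    atPos p T h (l₁ ++ r) = T (fun r' => h (l₁ ++ r')) r := hl ▸ atPos_append T h l₁ r

/-- the reflected Hermitian pairing on the `n`-th tensor power -/
def pairing (n : ℕ) (h g : St N) : ℂ := sumL n (fun l => h l * star (g l.reverse))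

lemma adj_cross (M : Matrix (Fin N × Fin N) (Fin N × Fin N) ℂ) (p q : ℕ) (h g : St N) :
    pairing (p + 2 + q) (atPos p (crossOp M) h) g =
      pairing (p + 2 + q) h (atPos q (crossOp (sh M)) g) := by
  simp only [pairing, sumL_mid]
  refine sumL_congr fun l₁ h1 => sumL_congr fun l₂ h2 => ?_
  have h2' : l₂.reverse.length = q := by simp [h2]
  simp only [List.reverse_append, List.reverse_cons, List.append_assoc, List.cons_append,
    List.nil_append, atPos_append' _ _ h1, atPos_append' _ _ h2', crossOp, sh_apply, star_sum,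
    star_mul', star_star, sum_mul, mul_sum, Prod.swap_prod_mk]
  calc ∑ k, ∑ m, ∑ i, ∑ j, M (k, m) (i, j) * h (l₁ ++ i :: j :: l₂) *
          star (g (l₂.reverse ++ m :: k :: l₁.reverse))
      = ∑ k, ∑ i, ∑ m, ∑ j, M (k, m) (i, j) * h (l₁ ++ i :: j :: l₂) *
          star (g (l₂.reverse ++ m :: k :: l₁.reverse)) := sum_congr rfl fun _ _ => sum_comm
    _ = ∑ i, ∑ k, ∑ j, ∑ m, M (k, m) (i, j) * h (l₁ ++ i :: j :: l₂) *
          star (g (l₂.reverse ++ m :: k :: l₁.reverse)) := by
        rw [sum_comm]
        exact sum_congr rfl fun _ _ => sum_congr rfl fun _ _ => sum_comm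
    _ = ∑ i, ∑ j, ∑ k, ∑ m, M (k, m) (i, j) * h (l₁ ++ i :: j :: l₂) *
          star (g (l₂.reverse ++ m :: k :: l₁.reverse)) := sum_congr rfl fun _ _ => sum_comm
    _ = _ := by
        refine sum_congr rfl fun _ _ => sum_congr rfl fun _ _ => ?_
        rw [sum_comm]
        refine sum_congr rfl fun _ _ => sum_congr rfl fun _ _ => ?_
        ring

lemma star_cup (h : Root N a) (i j : Fin N) : star (cupVec N a i j) = capVec N a j i := by
  unfold cupVec capVec
  rw [add_comm (j : ℕ)]
  split_ifs
  · rw [h.cupCoef_eq i.2, star_pow, star_inv₀, h.star_s, inv_pow, inv_pow, inv_inv]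
  · simp

lemma star_cap (h : Root N a) (i j : Fin N) : star (capVec N a i j) = cupVec N a j i := by
  rw [← star_cup h, star_star]

lemma adj_cup (hr : Root N a) (p q : ℕ) (h g : St N) :
    pairing (p + 2 + q) (atPos p (cupOp a) h) g = pairing (p + q) h (atPos q (capOp a) g) := by
  simp only [pairing, sumL_mid]
  rw [sumL_append]
  refine sumL_congr fun l₁ h1 => sumL_congr fun l₂ h2 => ?_
  have h2' : l₂.reverse.length = q := by simp [h2]
  simp only [List.reverse_append, List.reverse_cons, List.append_assoc, List.cons_append,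
    List.nil_append, atPos_append' _ _ h1, atPos_append' _ _ h2', cupOp, capOp, star_sum,
    star_mul', star_cap hr, mul_sum]
  rw [sum_comm]
  refine sum_congr rfl fun _ _ => sum_congr rfl fun _ _ => ?_
  ring

lemma adj_cap (hr : Root N a) (p q : ℕ) (h g : St N) :
    pairing (p + q) (atPos p (capOp a) h) g = pairing (p + 2 + q) h (atPos q (cupOp a) g) := by
  simp only [pairing, sumL_mid]
  rw [sumL_append]
  refine sumL_congr fun l₁ h1 => sumL_congr fun l₂ h2 => ?_
  have h2' : l₂.reverse.length = q := by simp [h2]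
  simp only [List.reverse_append, List.reverse_cons, List.append_assoc, List.cons_append,
    List.nil_append, atPos_append' _ _ h1, atPos_append' _ _ h2', cupOp, capOp,
    star_mul', star_cup hr, sum_mul]
  refine sum_congr rfl fun _ _ => sum_congr rfl fun _ _ => ?_
  ring

lemma adj_act (hr : Root N a) (s : Slice) (m : ℕ) (hs : s.Fits m) (h g : St N) :
    pairing (s.out m) (s.act N a h) g = pairing m h ((s.refl m).act N a g) := by
  cases s with
  | cup p =>
    obtain ⟨q, rfl⟩ : ∃ q, m = p + q := ⟨m - p, by simp only [Slice.Fits] at hs; omega⟩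
    have e : p + q + 2 = p + 2 + q := by omega
    simp only [Slice.out, Slice.act, Slice.refl, e, Nat.add_sub_cancel_left]
    exact adj_cup hr p q h g
  | cap p =>
    obtain ⟨q, rfl⟩ : ∃ q, m = p + 2 + q := ⟨m - 2 - p, by simp only [Slice.Fits] at hs; omega⟩
    have e : p + 2 + q - 2 = p + q := by omega
    simp only [Slice.out, Slice.act, Slice.refl, e, Nat.add_sub_cancel_left]
    exact adj_cap hr p q h g
  | pos p =>
    obtain ⟨q, rfl⟩ : ∃ q, m = p + 2 + q := ⟨m - 2 - p, by simp only [Slice.Fits] at hs; omega⟩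
    have e : p + 2 + q - 2 = p + q := by omega
    simp only [Slice.out, Slice.act, Slice.refl, e, Nat.add_sub_cancel_left, braid_inv hr]
    exact adj_cross _ p q h g
  | neg p =>
    obtain ⟨q, rfl⟩ : ∃ q, m = p + 2 + q := ⟨m - 2 - p, by simp only [Slice.Fits] at hs; omega⟩
    have e : p + 2 + q - 2 = p + q := by omega
    simp only [Slice.out, Slice.act, Slice.refl, e, Nat.add_sub_cancel_left, braid_inv hr]
    have := adj_cross (sh (braid N a)) p q h g
    rwa [sh_sh] at this

lemma adj_run (hr : Root N a) (w : List Slice) (m n : ℕ) (hw : IsTangle m w n) (h g : St N) :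
    pairing n (run N a w h) g = pairing m h (run N a (reflect m w) g) := by
  induction w generalizing m h with
  | nil =>
    simp only [IsTangle] at hw
    subst hw
    rfl
  | cons s w ih =>
    rw [run_cons, ih _ hw.2, adj_act hr s m hw.1, reflect, run_append]
    rfl

lemma pairing_three (h g : St N) :
    pairing 3 h g = ∑ i, ∑ j, ∑ k, h [i, j, k] * star (g [k, j, i]) := rfl

lemma pairing_star (h g : St N) : pairing 3 h g = star (pairing 3 g h) := by
  simp only [pairing_three, star_sum, star_mul', star_star]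
  calc ∑ i, ∑ j, ∑ k, h [i, j, k] * star (g [k, j, i])
      = ∑ j, ∑ i, ∑ k, h [i, j, k] * star (g [k, j, i]) := sum_comm
    _ = ∑ j, ∑ k, ∑ i, h [i, j, k] * star (g [k, j, i]) := sum_congr rfl fun _ _ => sum_comm
    _ = ∑ k, ∑ j, ∑ i, h [i, j, k] * star (g [k, j, i]) := sum_comm
    _ = _ := by simp only [mul_comm]

lemma pairing_vac (i : Fin N) (g : St N) : pairing 1 (vac i) g = star (g [i]) := by
  simp [pairing, sumL, vac]

/-- the invariant of `x` glued to the reflection of `y` is the pairing of their vectors -/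
lemma jones_glue (hr : Root N a) (hN : 0 < N) (x y : List Slice) (hy : IsTangle 1 y 3) :
    jones N a (x ++ reflect 1 y) =
      pairing 3 (run N a x (vac ⟨0, hN⟩)) (run N a y (vac ⟨0, hN⟩)) := by
  rw [pairing_star, adj_run hr y 1 3 hy, pairing_vac, star_star, jones, dif_pos hN, run_append]
  rfl

end

end Pool.Agent.H843Z.CJ
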