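import Pool.Agent.H843Z.CJ.Defs

open scoped Kronecker Matrix
open Matrix Finset

namespace Pool.Agent.H843Z.CJ

noncomputable section

/-- `a` behaves like a primitive `4N`-th root of unity -/
structure Root (N : ℕ) (a : ℂ) : Prop where
  two : 2 ≤ N
  ne : a ≠ 0
  conj : star a = a⁻¹
  pow : (a ^ 2) ^ N = -1
  br : ∀ n, 0 < n → n < N → (a ^ 2) ^ n - (a ^ 2)⁻¹ ^ n ≠ 0

variable {N : ℕ} {a : ℂ}

lemma qInt_eq (a : ℂ) (n : ℕ) :
    qInt a n = ((a ^ 2) ^ n - (a ^ 2)⁻¹ ^ n) / (a ^ 2 - (a ^ 2)⁻¹) := by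
  unfold qInt
  rw [pow_mul, pow_mul, inv_pow]

@[simp] lemma qInt_zero (a : ℂ) : qInt a 0 = 0 := by simp [qInt]

lemma qFact_succ (a : ℂ) (n : ℕ) : qFact a (n + 1) = qFact a n * qInt a (n + 1) := by
  simp [qFact, prod_range_succ]

@[simp] lemma qFact_zero (a : ℂ) : qFact a 0 = 1 := by simp [qFact]

namespace Root

lemma s_ne (h : Root N a) : a ^ 2 ≠ 0 := pow_ne_zero _ h.ne

lemma d_ne (h : Root N a) : a ^ 2 - (a ^ 2)⁻¹ ≠ 0 := by
  have := h.br 1 one_pos (by have := h.two; omega)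
  simpa using this

lemma qInt_ne (h : Root N a) {n : ℕ} (h0 : 0 < n) (h1 : n < N) : qInt a n ≠ 0 := by
  rw [qInt_eq]; exact div_ne_zero (h.br n h0 h1) h.d_ne

lemma qFact_ne (h : Root N a) {n : ℕ} (h1 : n < N) : qFact a n ≠ 0 := by
  unfold qFact
  refine prod_ne_zero_iff.2 fun i hi => h.qInt_ne (by omega) ?_
  have := mem_range.1 hi
  omega

lemma star_s (h : Root N a) : star (a ^ 2) = (a ^ 2)⁻¹ := by
  rw [star_pow, h.conj, inv_pow]

lemma star_qInt (h : Root N a) (n : ℕ) : star (qInt a n) = qInt a n := by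
  rw [qInt_eq]
  have := h.d_ne
  have hs := h.star_s
  generalize a ^ 2 = s at *
  rw [star_div₀, star_sub, star_sub, star_pow, star_pow, star_inv₀, hs, inv_inv]
  have h2 : s⁻¹ - s ≠ 0 := fun h0 => this (by linear_combination -h0)
  rw [div_eq_div_iff h2 this]
  ring

lemma star_qFact (h : Root N a) (n : ℕ) : star (qFact a n) = qFact a n := by
  induction n with
  | zero => simp
  | succ n ih => rw [qFact_succ, star_mul', ih, h.star_qInt]

lemma qInt_sub (h : Root N a) {m : ℕ} (hm : m ≤ N) : qInt a (N - m) = qInt a m := by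
  rw [qInt_eq, qInt_eq]
  congr 1
  have h1 : (a ^ 2) ^ (N - m) * (a ^ 2) ^ m = -1 := by
    rw [← pow_add, Nat.sub_add_cancel hm, h.pow]
  have h2 : (a ^ 2) ^ m ≠ 0 := pow_ne_zero _ h.s_ne
  have h3 : (a ^ 2) ^ (N - m) = -((a ^ 2) ^ m)⁻¹ := by
    field_simp
    linear_combination h1
  rw [inv_pow, inv_pow, h3, inv_neg, inv_inv]
  ring

lemma qInt_N (h : Root N a) : qInt a N = 0 := by
  have := h.qInt_sub (m := 0) (Nat.zero_le _)
  simpa using this

lemma qFact_mul (h : Root N a) {i : ℕ} (hi : i ≤ N - 1) :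
    qFact a i * qFact a (N - 1 - i) = qFact a (N - 1) := by
  induction i with
  | zero => simp
  | succ i ih =>
    have e : N - 1 - i = (N - 1 - (i + 1)) + 1 := by omega
    have e2 : N - 1 - (i + 1) + 1 = N - (i + 1) := by omega
    rw [← ih (by omega), e, qFact_succ, qFact_succ, e2, h.qInt_sub (by omega)]
    ring

lemma cupCoef_eq (h : Root N a) {i : ℕ} (hi : i < N) :
    cupCoef N a i = (a ^ 2)⁻¹ ^ (i * (i + 2)) := by
  unfold cupCoef
  rw [h.qFact_mul (by omega), div_self (h.qFact_ne (by omega)), mul_one]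
  have e : 2 * (i : ℤ) * ((N : ℤ) - 2 - i) = ((2 * (N * i) : ℕ) : ℤ) - ((2 * (i * (i + 2)) : ℕ) : ℤ) := by
    push_cast; ring
  rw [e, zpow_sub₀ h.ne, zpow_natCast, zpow_natCast, pow_mul, pow_mul, h.pow, pow_mul a 2,
    inv_pow, ← mul_div_assoc, ← mul_pow]
  simp

end Root

/-- the Cartan element `z^H` -/
def matK (N : ℕ) (z : ℂ) : Matrix (Fin N) (Fin N) ℂ := diagonal fun i => z ^ wt i

lemma E_mul {ι : Type} (M : Matrix (Fin N) ι ℂ) (i : Fin N) (j : ι) :
    (matE N a * M) i j = if h : (i : ℕ) + 1 < N then qInt a (i + 1) * M ⟨i + 1, h⟩ j else 0 := by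
  rw [mul_apply]
  split_ifs with h
  · rw [sum_eq_single ⟨i + 1, h⟩]
    · simp [matE]
    · intro b _ hb
      have : (b : ℕ) ≠ i + 1 := fun h0 => hb (Fin.ext h0)
      simp [matE, this]
    · simp
  · refine sum_eq_zero fun b _ => ?_
    have : (b : ℕ) ≠ i + 1 := by have := b.2; omega
    simp [matE, this]

lemma F_mul {ι : Type} (M : Matrix (Fin N) ι ℂ) (i : Fin N) (j : ι) :
    (matF N a * M) i j =
      if h : 0 < (i : ℕ) then qInt a (N - i) * M ⟨i - 1, by have := i.2; omega⟩ j else 0 := by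
  rw [mul_apply]
  split_ifs with h
  · rw [sum_eq_single ⟨i - 1, by have := i.2; omega⟩]
    · have e : (i : ℕ) = i - 1 + 1 := by omega
      have e2 : N - 1 - (i - 1) = N - i := by omega
      simp only [matF]
      rw [if_pos e, e2]
    · intro b _ hb
      have : (i : ℕ) ≠ b + 1 := fun h0 => hb (Fin.ext (by simp; omega))
      simp [matF, this]
    · simp
  · refine sum_eq_zero fun b _ => ?_
    have : (i : ℕ) ≠ b + 1 := by omega
    simp [matF, this]

lemma K_mul_E {z : ℂ} (hz : z ≠ 0) : matK N z * matE N a = (z ^ 2) • (matE N a * matK N z) := by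
  ext i j
  simp only [matK, diagonal_mul, mul_diagonal, Matrix.smul_apply, matE, smul_eq_mul]
  split_ifs with h
  · have : wt i = wt j + 2 := by unfold wt; rw [h]; push_cast; ring
    rw [this, zpow_add₀ hz]
    simp only [zpow_ofNat]
    ring
  · simp

lemma K_mul_F {z : ℂ} (hz : z ≠ 0) : matK N z * matF N a = (z⁻¹ ^ 2) • (matF N a * matK N z) := by
  ext i j
  simp only [matK, diagonal_mul, mul_diagonal, Matrix.smul_apply, matF, smul_eq_mul]
  split_ifs with h
  · have : wt j = wt i + 2 := by unfold wt; rw [h]; push_cast; ring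
    rw [this, zpow_add₀ hz]
    simp only [zpow_ofNat]
    field_simp
  · simp

lemma K_mul_K (z w : ℂ) : matK N z * matK N w = matK N (z * w) := by
  simp [matK, diagonal_mul_diagonal, mul_zpow]

lemma K_one : matK N 1 = 1 := by simp [matK]

lemma K_conj (z : ℂ) : (matK N z)ᴴ = matK N (star z) := by
  simp only [matK, diagonal_conjTranspose]
  congr 1
  ext i
  simp [star_zpow₀]

lemma wt_pow {z : ℂ} (hz : z ≠ 0) (i : Fin N) : z ^ wt i = z ^ (N - 1 - i) / z ^ (i : ℕ) := by
  have : wt i = ((N - 1 - i : ℕ) : ℤ) - ((i : ℕ) : ℤ) := by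
    unfold wt
    have := i.2
    omega
  rw [this, zpow_sub₀ hz, zpow_natCast, zpow_natCast]

lemma EF (h : Root N a) : matE N a * matF N a - matF N a * matE N a =
    (a ^ 2 - (a ^ 2)⁻¹)⁻¹ • (matK N (a ^ 2) - matK N (a ^ 2)⁻¹) := by
  ext i j
  have hs := h.s_ne
  have hd := h.d_ne
  rw [Matrix.sub_apply, E_mul, F_mul]
  have e1 : (if h : (i : ℕ) + 1 < N then qInt a (i + 1) * matF N a ⟨i + 1, h⟩ j else 0) =
      if i = j then qInt a (i + 1) * qInt a (N - 1 - i) else 0 := by
    split_ifs with h1 h2 h2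
    · subst h2; simp [matF]
    · have : (i : ℕ) ≠ j := fun h0 => h2 (Fin.ext h0)
      simp [matF, this]
    · have : N - 1 - i = 0 := by omega
      rw [this]; simp
    · rfl
  have e2 : (if h : 0 < (i : ℕ) then
        qInt a (N - i) * matE N a ⟨i - 1, by have := i.2; omega⟩ j else 0) =
      if i = j then qInt a (N - 1 - i + 1) * qInt a i else 0 := by
    split_ifs with h1 h2 h2
    · subst h2
      have e : (i : ℕ) = i - 1 + 1 := by omega
      have e3 : N - 1 - i + 1 = N - i := by have := i.2; omega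
      simp only [matE]
      rw [if_pos e, e3]
    · have : (j : ℕ) ≠ i - 1 + 1 := fun h0 => h2 (Fin.ext (by omega))
      simp [matE, this]
    · have : (i : ℕ) = 0 := by omega
      rw [this]; simp
    · rfl
  rw [e1, e2]
  by_cases hij : i = j
  · subst hij
    simp only [if_true, matK, Matrix.smul_apply, Matrix.sub_apply, diagonal_apply_eq, smul_eq_mul]
    rw [wt_pow hs, wt_pow (inv_ne_zero hs)]
    simp only [qInt_eq]
    generalize a ^ 2 = s at *
    simp only [pow_succ, inv_pow]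
    have hx : s ^ (i : ℕ) ≠ 0 := pow_ne_zero _ hs
    have hy : s ^ (N - 1 - i) ≠ 0 := pow_ne_zero _ hs
    generalize s ^ (i : ℕ) = x at *
    generalize s ^ (N - 1 - i) = y at *
    have hd' : s ^ 2 - 1 ≠ 0 := fun h0 => hd (by field_simp; linear_combination h0)
    have e : s - s⁻¹ = (s ^ 2 - 1) / s := by field_simp
    rw [e]
    field_simp
    ring
  · simp [hij, matK]

end

end Pool.Agent.H843Z.CJ
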