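import Pool.Agent.H843Z.CJ.Alg

open scoped Kronecker Matrix
open Matrix Finset

namespace Pool.Agent.H843Z.CJ

noncomputable section

variable {N : ℕ} {a : ℂ}

lemma E_conj (h : Root N a) : (matE N a)ᴴ = matF N a := by
  ext i j
  simp only [conjTranspose_apply, matE, matF]
  split_ifs with h1
  · rw [h.star_qInt]
    have e : N - 1 - j = N - i := by omega
    rw [e, h.qInt_sub (le_of_lt i.2)]
  · simp

lemma F_conj (h : Root N a) : (matF N a)ᴴ = matE N a := by
  rw [← E_conj h, conjTranspose_conjTranspose]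

lemma E_pow_apply (n : ℕ) (i j : Fin N) :
    (matE N a ^ n) i j =
      if (j : ℕ) = i + n then ∏ k ∈ range n, qInt a (i + k + 1) else 0 := by
  induction n generalizing i with
  | zero =>
    simp only [pow_zero, one_apply, add_zero, range_zero, prod_empty]
    by_cases h : i = j
    · simp [h]
    · have : (j : ℕ) ≠ i := fun h0 => h (Fin.ext h0.symm)
      simp [h, this]
  | succ n ih =>
    rw [pow_succ', E_mul]
    split_ifs with h1 h2 h2
    · rw [ih, if_pos (by simp; omega), prod_range_succ']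
      simp only [add_zero]
      rw [mul_comm]
      congr 1
      refine prod_congr rfl fun k _ => ?_
      congr 1
      omega
    · rw [ih, if_neg (by simp; omega), mul_zero]
    · have := j.2; omega
    · rfl

lemma E_pow_N : matE N a ^ N = 0 := by
  ext i j
  rw [E_pow_apply, if_neg (by have := j.2; omega)]
  rfl

lemma K_mul_Fpow {z : ℂ} (hz : z ≠ 0) (n : ℕ) :
    matK N z * matF N a ^ n = (z⁻¹ ^ 2) ^ n • (matF N a ^ n * matK N z) := by
  induction n with
  | zero => simp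
  | succ n ih =>
    rw [pow_succ, ← mul_assoc, ih, smul_mul_assoc, mul_assoc, K_mul_F hz, mul_smul_comm,
      smul_smul, pow_succ _ n, mul_assoc]

lemma K_mul_Epow {z : ℂ} (hz : z ≠ 0) (n : ℕ) :
    matK N z * matE N a ^ n = (z ^ 2) ^ n • (matE N a ^ n * matK N z) := by
  induction n with
  | zero => simp
  | succ n ih =>
    rw [pow_succ, ← mul_assoc, ih, smul_mul_assoc, mul_assoc, K_mul_E hz, mul_smul_comm,
      smul_smul, pow_succ _ n, mul_assoc]

lemma E_Fpow (h : Root N a) (n : ℕ) :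
    matE N a * matF N a ^ (n + 1) - matF N a ^ (n + 1) * matE N a =
      (qInt a (n + 1) / (a ^ 2 - (a ^ 2)⁻¹)) • (matF N a ^ n *
        (((a ^ 2)⁻¹ ^ n) • matK N (a ^ 2) - ((a ^ 2) ^ n) • matK N (a ^ 2)⁻¹)) := by
  have hs := h.s_ne
  have hd := h.d_ne
  have hEF := EF h
  have h1 : matK N (a ^ 2) * matF N a = _ := K_mul_F hs
  have h2 : matK N (a ^ 2)⁻¹ * matF N a = _ := K_mul_F (inv_ne_zero hs)
  induction n with
  | zero =>
    have : qInt a 1 = 1 := by rw [qInt_eq]; simp [div_self hd]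
    simp [hEF, this]
  | succ n ih =>
    have e : matE N a * matF N a ^ (n + 1 + 1) - matF N a ^ (n + 1 + 1) * matE N a =
        (matE N a * matF N a ^ (n + 1) - matF N a ^ (n + 1) * matE N a) * matF N a +
          matF N a ^ (n + 1) * (matE N a * matF N a - matF N a * matE N a) := by
      rw [pow_succ _ (n + 1)]; noncomm_ring
    rw [e, ih, hEF]
    simp only [smul_mul_assoc, mul_assoc, sub_mul, h1, h2, mul_sub, mul_smul_comm, smul_smul,
      smul_sub, ← mul_assoc (matF N a ^ n) (matF N a), ← pow_succ]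
    simp only [qInt_eq, inv_inv]
    generalize a ^ 2 = s at *
    have hx : s ^ n ≠ 0 := pow_ne_zero _ hs
    have hd' : s ^ 2 - 1 ≠ 0 := fun h0 => hd (by field_simp; linear_combination h0)
    have e' : s - s⁻¹ = (s ^ 2 - 1) / s := by field_simp
    simp only [pow_succ _ (n + 1), pow_succ _ n, inv_pow, e']
    generalize s ^ n = x at *
    match_scalars <;> field_simp <;> ring

/-- flip of the two factors -/
def tau (N : ℕ) : Matrix (Fin N × Fin N) (Fin N × Fin N) ℂ :=
  fun p q => if p.swap = q then 1 else 0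

lemma tau_mul {ι : Type} (M : Matrix (Fin N × Fin N) ι ℂ) (p : Fin N × Fin N) (q : ι) :
    (tau N * M) p q = M p.swap q := by
  simp [mul_apply, tau]

lemma mul_tau {ι : Type} (M : Matrix ι (Fin N × Fin N) ℂ) (p : ι) (q : Fin N × Fin N) :
    (M * tau N) p q = M p q.swap := by
  rw [mul_apply, sum_eq_single q.swap]
  · simp [tau]
  · intro b _ hb
    have : b.swap ≠ q := fun h0 => hb (by rw [← h0]; simp)
    simp [tau, this]
  · simp

lemma tau_tau : tau N * tau N = 1 := by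
  ext p q
  simp [tau_mul, tau, one_apply]

lemma tau_kron (A B : Matrix (Fin N) (Fin N) ℂ) : tau N * (A ⊗ₖ B) = (B ⊗ₖ A) * tau N := by
  ext p q
  simp [tau_mul, mul_tau, kroneckerMap_apply, mul_comm]

/-- adjoint for the reflected Hermitian pairing -/
def sh (M : Matrix (Fin N × Fin N) (Fin N × Fin N) ℂ) : Matrix (Fin N × Fin N) (Fin N × Fin N) ℂ :=
  tau N * Mᴴ * tau N

lemma sh_apply (M : Matrix (Fin N × Fin N) (Fin N × Fin N) ℂ) (p q) :
    sh M p q = star (M q.swap p.swap) := by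
  simp [sh, mul_tau, tau_mul]

lemma sh_mul (M M' : Matrix (Fin N × Fin N) (Fin N × Fin N) ℂ) : sh (M * M') = sh M' * sh M := by
  simp only [sh, conjTranspose_mul, mul_assoc]
  rw [← mul_assoc (tau N) (tau N), tau_tau, one_mul]

lemma sh_sh (M : Matrix (Fin N × Fin N) (Fin N × Fin N) ℂ) : sh (sh M) = M := by
  ext p q; simp [sh_apply]

lemma sh_add (M M' : Matrix (Fin N × Fin N) (Fin N × Fin N) ℂ) : sh (M + M') = sh M + sh M' := by
  ext p q; simp [sh_apply]

lemma sh_smul (c : ℂ) (M : Matrix (Fin N × Fin N) (Fin N × Fin N) ℂ) :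
    sh (c • M) = star c • sh M := by
  ext p q; simp [sh_apply]

lemma sh_sum {ι : Type} (s : Finset ι) (M : ι → Matrix (Fin N × Fin N) (Fin N × Fin N) ℂ) :
    sh (∑ i ∈ s, M i) = ∑ i ∈ s, sh (M i) := by
  ext p q; simp [sh_apply, Matrix.sum_apply]

lemma sh_kron (A B : Matrix (Fin N) (Fin N) ℂ) : sh (A ⊗ₖ B) = Bᴴ ⊗ₖ Aᴴ := by
  ext p q; simp [sh_apply, kroneckerMap_apply, mul_comm]

lemma sh_tau : sh (tau N) = tau N := by
  ext p q
  simp only [sh_apply, tau, Prod.swap_swap]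
  by_cases h : p.swap = q
  · simp [h]
  · have : ¬ q = p.swap := fun h0 => h h0.symm
    simp [h, this]

/-- coproduct of `E` -/
def dE (N : ℕ) (a : ℂ) : Matrix (Fin N × Fin N) (Fin N × Fin N) ℂ :=
  matE N a ⊗ₖ matK N (a ^ 2) + (1 : Matrix (Fin N) (Fin N) ℂ) ⊗ₖ matE N a

/-- coproduct of `F` -/
def dF (N : ℕ) (a : ℂ) : Matrix (Fin N × Fin N) (Fin N × Fin N) ℂ :=
  matF N a ⊗ₖ (1 : Matrix (Fin N) (Fin N) ℂ) + matK N (a ^ 2)⁻¹ ⊗ₖ matF N a

/-- coproduct of `z^H` -/
def dK (N : ℕ) (z : ℂ) : Matrix (Fin N × Fin N) (Fin N × Fin N) ℂ := matK N z ⊗ₖ matK N z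

lemma sh_dE (h : Root N a) : sh (dE N a) = dF N a := by
  simp only [dE, dF, sh_add, sh_kron, E_conj h, K_conj, h.star_s, conjTranspose_one]
  rw [add_comm]

lemma sh_dF (h : Root N a) : sh (dF N a) = dE N a := by rw [← sh_dE h, sh_sh]

lemma sh_dK (z : ℂ) : sh (dK N z) = dK N (star z) := by
  simp only [dK, sh_kron, K_conj]

lemma K_comm (z w : ℂ) : matK N z * matK N w = matK N w * matK N z := by
  rw [K_mul_K, K_mul_K, mul_comm]

lemma dK_dE {z : ℂ} (hz : z ≠ 0) : dK N z * dE N a = (z ^ 2) • (dE N a * dK N z) := by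
  simp only [dK, dE, mul_add, add_mul, ← mul_kronecker_mul, K_mul_E hz, smul_kronecker,
    kronecker_smul, mul_one, one_mul, smul_add, K_comm z (a ^ 2)]

lemma dK_dF {z : ℂ} (hz : z ≠ 0) : dK N z * dF N a = (z⁻¹ ^ 2) • (dF N a * dK N z) := by
  simp only [dK, dF, mul_add, add_mul, ← mul_kronecker_mul, K_mul_F hz, smul_kronecker,
    kronecker_smul, mul_one, one_mul, smul_add, K_comm z (a ^ 2)⁻¹]

lemma dK_dK (z w : ℂ) : dK N z * dK N w = dK N w * dK N z := by
  simp only [dK, ← mul_kronecker_mul, K_comm z w]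

lemma sub_kron (A B C : Matrix (Fin N) (Fin N) ℂ) : (A - B) ⊗ₖ C = A ⊗ₖ C - B ⊗ₖ C := by
  ext p q; simp [kroneckerMap_apply, sub_mul]

lemma kron_sub (A B C : Matrix (Fin N) (Fin N) ℂ) : C ⊗ₖ (A - B) = C ⊗ₖ A - C ⊗ₖ B := by
  ext p q; simp [kroneckerMap_apply, mul_sub]

lemma dEF (h : Root N a) : dE N a * dF N a - dF N a * dE N a =
    (a ^ 2 - (a ^ 2)⁻¹)⁻¹ • (dK N (a ^ 2) - dK N (a ^ 2)⁻¹) := by
  have hs := h.s_ne
  have e1 : matE N a * matF N a = matF N a * matE N a +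
      (a ^ 2 - (a ^ 2)⁻¹)⁻¹ • (matK N (a ^ 2) - matK N (a ^ 2)⁻¹) := by
    rw [← EF h]; abel
  simp only [dK, dE, dF, mul_add, add_mul, ← mul_kronecker_mul, mul_one, one_mul, e1,
    K_mul_E (inv_ne_zero hs), K_mul_F hs, add_kronecker, kronecker_add, smul_kronecker,
    kronecker_smul, sub_kron, kron_sub, smul_sub]
  abel

/-- the Casimir element acting on `V ⊗ V` -/
def cas (N : ℕ) (a : ℂ) : Matrix (Fin N × Fin N) (Fin N × Fin N) ℂ :=
  ((a ^ 2 - (a ^ 2)⁻¹) ^ 2) • (dF N a * dE N a) + (a ^ 2) • dK N (a ^ 2) +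
    (a ^ 2)⁻¹ • dK N (a ^ 2)⁻¹

lemma sh_cas (h : Root N a) : sh (cas N a) = cas N a := by
  have hs := h.star_s
  simp only [cas, sh_add, sh_smul, sh_mul, sh_dE h, sh_dF h, sh_dK]
  generalize a ^ 2 = s at *
  simp only [star_pow, star_sub, star_inv₀, hs, inv_inv]
  have : (s⁻¹ - s) ^ 2 = (s - s⁻¹) ^ 2 := by ring
  rw [this]
  abel

lemma cas_dE (h : Root N a) : cas N a * dE N a = dE N a * cas N a := by
  have hs := h.s_ne
  have hd := h.d_ne
  have e1 : dE N a * dF N a = dF N a * dE N a +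
      (a ^ 2 - (a ^ 2)⁻¹)⁻¹ • (dK N (a ^ 2) - dK N (a ^ 2)⁻¹) := by
    rw [← dEF h]; abel
  simp only [cas, add_mul, mul_add, smul_mul_assoc, mul_smul_comm, ← mul_assoc, e1, sub_mul,
    dK_dE hs, dK_dE (inv_ne_zero hs), smul_smul, smul_add, smul_sub]
  generalize a ^ 2 = s at *
  have hd' : s ^ 2 - 1 ≠ 0 := fun h0 => hd (by field_simp; linear_combination h0)
  have e' : s - s⁻¹ = (s ^ 2 - 1) / s := by field_simp
  simp only [e']
  match_scalars <;> field_simp <;> ring

lemma cas_dK {z : ℂ} (hz : z ≠ 0) : cas N a * dK N z = dK N z * cas N a := by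
  have e : dK N z * (dF N a * dE N a) = dF N a * dE N a * dK N z := by
    rw [← mul_assoc, dK_dF hz, smul_mul_assoc, mul_assoc, dK_dE hz, mul_smul_comm, smul_smul,
      mul_assoc]
    have : z⁻¹ ^ 2 * z ^ 2 = 1 := by field_simp
    rw [this, one_smul]
  simp only [cas, add_mul, mul_add, smul_mul_assoc, mul_smul_comm, e, dK_dK z]

end

end Pool.Agent.H843Z.CJ
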