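import Pool.Agent.H843Z.CJ.Alg2

open scoped Kronecker Matrix
open Matrix Finset

namespace Pool.Agent.H843Z.CJ

noncomputable section

variable {N : ℕ} {a : ℂ}

/-- coefficients of the quasi-R-matrix -/
def th (a : ℂ) (n : ℕ) : ℂ := a ^ (n * (n - 1)) * (a ^ 2 - a⁻¹ ^ 2) ^ n / qFact a n

/-- coefficients of its inverse -/
def th' (a : ℂ) (n : ℕ) : ℂ := a⁻¹ ^ (n * (n - 1)) * (a⁻¹ ^ 2 - a ^ 2) ^ n / qFact a n

@[simp] lemma th_zero : th a 0 = 1 := by simp [th]
@[simp] lemma th'_zero : th' a 0 = 1 := by simp [th']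

lemma tri_succ (n : ℕ) : (n + 1) * (n + 1 - 1) = n * (n - 1) + 2 * n := by
  cases n with
  | zero => simp
  | succ n => simp; ring

lemma th_succ (h : Root N a) {n : ℕ} (hn : n + 1 < N) :
    th a (n + 1) * qInt a (n + 1) = th a n * (a ^ 2 - (a ^ 2)⁻¹) * (a ^ 2) ^ n := by
  have h1 := h.qInt_ne (n := n + 1) (by omega) hn
  have h2 := h.qFact_ne (n := n) (by omega)
  unfold th
  rw [tri_succ, qFact_succ, pow_add, pow_mul a 2 n, pow_succ _ n, inv_pow]
  field_simp

lemma th'_succ (h : Root N a) {n : ℕ} (hn : n + 1 < N) :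
    th' a (n + 1) * qInt a (n + 1) = -(th' a n * (a ^ 2 - (a ^ 2)⁻¹) * (a ^ 2)⁻¹ ^ n) := by
  have h1 := h.qInt_ne (n := n + 1) (by omega) hn
  have h2 := h.qFact_ne (n := n) (by omega)
  unfold th'
  rw [tri_succ, qFact_succ, pow_add, pow_mul a⁻¹ 2 n, pow_succ _ n, inv_pow a 2]
  generalize a ^ 2 = s
  generalize s⁻¹ = s'
  field_simp
  ring

lemma star_th (h : Root N a) (n : ℕ) : star (th a n) = th' a n := by
  unfold th th'
  rw [star_div₀, star_mul', star_pow, star_pow, star_sub, star_pow, star_pow, star_inv₀, h.conj,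
    inv_inv, h.star_qFact]

lemma qInt_add (h : Root N a) (n m : ℕ) :
    qInt a (n + m) = qInt a n * (a ^ 2)⁻¹ ^ m + qInt a m * (a ^ 2) ^ n := by
  have hs := h.s_ne
  have hd := h.d_ne
  simp only [qInt_eq]
  generalize a ^ 2 = s at *
  rw [pow_add, pow_add]
  have : s ^ n * s⁻¹ ^ n = 1 := by rw [← mul_pow, mul_inv_cancel₀ hs, one_pow]
  field_simp
  ring

lemma th_conv (h : Root N a) {l : ℕ} (h0 : 0 < l) (hl : l < N) :
    ∑ p ∈ antidiagonal l, th a p.1 * th' a p.2 = 0 := by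
  obtain ⟨k, rfl⟩ : ∃ k, l = k + 1 := ⟨l - 1, by omega⟩
  have h1 := h.qInt_ne h0 hl
  refine mul_left_cancel₀ h1 ?_
  rw [mul_zero, mul_sum]
  have e : ∀ p ∈ antidiagonal (k + 1), qInt a (k + 1) * (th a p.1 * th' a p.2) =
      th a p.1 * qInt a p.1 * ((a ^ 2)⁻¹ ^ p.2 * th' a p.2) +
        th a p.1 * (a ^ 2) ^ p.1 * (th' a p.2 * qInt a p.2) := by
    intro p hp
    rw [← mem_antidiagonal.1 hp, qInt_add h]
    ring
  rw [sum_congr rfl e, sum_add_distrib, Finset.Nat.sum_antidiagonal_succ,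
    Finset.Nat.sum_antidiagonal_succ']
  simp only [qInt_zero, mul_zero, zero_mul, zero_add]
  rw [← sum_add_distrib]
  refine sum_eq_zero fun p hp => ?_
  have := mem_antidiagonal.1 hp
  rw [th_succ h (by omega), th'_succ h (by omega)]
  ring

/-- quasi-R-matrix -/
def qR (N : ℕ) (a : ℂ) (c : ℕ → ℂ) : Matrix (Fin N × Fin N) (Fin N × Fin N) ℂ :=
  ∑ n ∈ range N, c n • ((matE N a ^ n) ⊗ₖ (matF N a ^ n))

/-- diagonal part -/
def dD (N : ℕ) (a : ℂ) : Matrix (Fin N × Fin N) (Fin N × Fin N) ℂ :=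
  diagonal (fun p => a ^ (wt p.1 * wt p.2))

lemma rMat_eq : rMat N a = dD N a * qR N a (th a) := rfl

lemma braid_eq : braid N a = tau N * (dD N a * qR N a (th a)) := by
  ext p q
  rw [tau_mul, ← rMat_eq]
  rfl

lemma kron_pow (A B : Matrix (Fin N) (Fin N) ℂ) (n : ℕ) :
    (A ^ n) ⊗ₖ (B ^ n) = (A ⊗ₖ B) ^ n := by
  induction n with
  | zero => simp
  | succ n ih => rw [pow_succ, pow_succ, mul_kronecker_mul, ih, pow_succ]

lemma qR_inv (h : Root N a) : qR N a (th a) * qR N a (th' a) = 1 := by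
  have hN := h.two
  set Z := matE N a ⊗ₖ matF N a with hZ
  have hZN : Z ^ N = 0 := by rw [hZ, ← kron_pow, E_pow_N, zero_kronecker]
  have e : ∀ c : ℕ → ℂ, qR N a c =
      Polynomial.aeval Z (∑ n ∈ range N, Polynomial.monomial n (c n)) := by
    intro c
    simp only [qR, map_sum, Polynomial.aeval_monomial, kron_pow, Algebra.smul_def, hZ]
  have co : ∀ (c : ℕ → ℂ) (k : ℕ), k < N →
      (∑ n ∈ range N, Polynomial.monomial n (c n)).coeff k = c k := by
    intro c k hk
    simp [Polynomial.coeff_monomial, hk]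
  rw [e, e, ← map_mul]
  have hd : Polynomial.X ^ N ∣ (∑ n ∈ range N, Polynomial.monomial n (th a n)) *
      (∑ n ∈ range N, Polynomial.monomial n (th' a n)) - 1 := by
    rw [Polynomial.X_pow_dvd_iff]
    intro d hd
    rw [Polynomial.coeff_sub, Polynomial.coeff_mul]
    have : ∀ p ∈ antidiagonal d, (∑ n ∈ range N, Polynomial.monomial n (th a n)).coeff p.1 *
        (∑ n ∈ range N, Polynomial.monomial n (th' a n)).coeff p.2 = th a p.1 * th' a p.2 := by
      intro p hp
      have := mem_antidiagonal.1 hp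
      rw [co _ _ (by omega), co _ _ (by omega)]
    rw [sum_congr rfl this]
    rcases Nat.eq_zero_or_pos d with rfl | h0
    · simp
    · rw [th_conv h h0 hd, Polynomial.coeff_one, if_neg (by omega), sub_zero]
  obtain ⟨Q, hQ⟩ := hd
  rw [sub_eq_iff_eq_add] at hQ
  rw [hQ, map_add, map_mul, map_pow, Polynomial.aeval_X, hZN, zero_mul, zero_add, map_one]

lemma dD_inv (h : a ≠ 0) : dD N a * dD N a⁻¹ = 1 := by
  simp only [dD, diagonal_mul_diagonal, ← mul_zpow, mul_inv_cancel₀ h, _root_.one_zpow]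
  exact diagonal_one

lemma sh_dD (h : Root N a) : sh (dD N a) = dD N a⁻¹ := by
  ext p q
  rw [sh_apply]
  simp only [dD, diagonal_apply]
  by_cases hpq : p = q
  · subst hpq
    simp only [if_true, star_zpow₀, h.conj, Prod.fst_swap, Prod.snd_swap, mul_comm]
  · have : q.swap ≠ p.swap := fun h0 => hpq (Prod.swap_injective h0).symm
    simp [hpq, this]

lemma sh_qR (h : Root N a) : sh (qR N a (th a)) = qR N a (th' a) := by
  simp only [qR, sh_sum, sh_smul, sh_kron, conjTranspose_pow, E_conj h, F_conj h, star_th h]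

lemma sh_braid_eq (h : Root N a) : sh (braid N a) = qR N a (th' a) * dD N a⁻¹ * tau N := by
  rw [braid_eq, sh_mul, sh_mul, sh_tau, sh_dD h, sh_qR h]

lemma braid_mul_sh (h : Root N a) : braid N a * sh (braid N a) = 1 := by
  rw [sh_braid_eq h, braid_eq]
  calc tau N * (dD N a * qR N a (th a)) * (qR N a (th' a) * dD N a⁻¹ * tau N)
      = tau N * (dD N a * (qR N a (th a) * qR N a (th' a)) * dD N a⁻¹) * tau N := by
        simp only [mul_assoc]
    _ = 1 := by rw [qR_inv h, mul_one, dD_inv h.ne, mul_one, tau_tau]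

lemma braid_inv (h : Root N a) : (braid N a)⁻¹ = sh (braid N a) :=
  Matrix.inv_eq_right_inv (braid_mul_sh h)

lemma sh_mul_braid (h : Root N a) : sh (braid N a) * braid N a = 1 :=
  mul_eq_one_comm.1 (braid_mul_sh h)

lemma qR_dE (h : Root N a) : qR N a (th a) * dE N a =
    (matE N a ⊗ₖ matK N (a ^ 2)⁻¹ + (1 : Matrix (Fin N) (Fin N) ℂ) ⊗ₖ matE N a) *
      qR N a (th a) := by
  have hs := h.s_ne
  have hd := h.d_ne
  obtain ⟨M, rfl⟩ : ∃ M, N = M + 1 := ⟨N - 1, by have := h.two; omega⟩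
  rw [← sub_eq_zero]
  have e : qR (M + 1) a (th a) * dE (M + 1) a -
      (matE (M + 1) a ⊗ₖ matK (M + 1) (a ^ 2)⁻¹ +
        (1 : Matrix (Fin (M + 1)) (Fin (M + 1)) ℂ) ⊗ₖ matE (M + 1) a) * qR (M + 1) a (th a) =
      ∑ n ∈ range (M + 1), th a n • ((matE (M + 1) a ^ (n + 1)) ⊗ₖ
        (matF (M + 1) a ^ n * matK (M + 1) (a ^ 2) - matK (M + 1) (a ^ 2)⁻¹ * matF (M + 1) a ^ n))
      - ∑ n ∈ range (M + 1), th a n • ((matE (M + 1) a ^ n) ⊗ₖ
        (matE (M + 1) a * matF (M + 1) a ^ n - matF (M + 1) a ^ n * matE (M + 1) a)) := by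
    simp only [qR, dE, sum_mul, mul_sum, ← sum_sub_distrib]
    refine sum_congr rfl fun n _ => ?_
    simp only [mul_add, add_mul, smul_mul_assoc, mul_smul_comm, ← mul_kronecker_mul, mul_one,
      one_mul, kron_sub, smul_sub, smul_add, ← pow_succ, ← pow_succ']
    abel
  rw [e, sum_range_succ, sum_range_succ', E_pow_N]
  simp only [zero_kronecker, smul_zero, add_zero, pow_zero, mul_one, one_mul, sub_self,
    kronecker_zero]
  rw [← sum_sub_distrib]
  refine sum_eq_zero fun n hn => ?_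
  have hn' := mem_range.1 hn
  rw [E_Fpow h, K_mul_Fpow (inv_ne_zero hs), kronecker_smul, smul_smul, ← mul_div_assoc,
    th_succ h (by omega)]
  simp only [mul_sub, mul_smul_comm, kron_sub, kronecker_smul, smul_sub, smul_smul, inv_inv]
  generalize a ^ 2 = s at *
  have hx : s ^ n ≠ 0 := pow_ne_zero _ hs
  rw [← pow_mul, mul_comm 2 n, pow_mul, inv_pow]
  generalize s ^ n = x at *
  have hd' : s ^ 2 - 1 ≠ 0 := fun h0 => hd (by field_simp; linear_combination h0)
  have e' : s - s⁻¹ = (s ^ 2 - 1) / s := by field_simp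
  simp only [e']
  match_scalars <;> field_simp <;> ring

lemma wt_succ {i j : Fin N} (h : (j : ℕ) = i + 1) : wt i = wt j + 2 := by
  unfold wt; rw [h]; push_cast; ring

lemma dD_E1 (h : a ≠ 0) : dD N a * (matE N a ⊗ₖ matK N (a ^ 2)⁻¹) =
    (matE N a ⊗ₖ (1 : Matrix (Fin N) (Fin N) ℂ)) * dD N a := by
  ext ⟨i, j⟩ ⟨k, l⟩
  simp only [dD, diagonal_mul, mul_diagonal, kroneckerMap_apply, matK, diagonal_apply, one_apply,
    matE]
  split_ifs with h1 h2
  · subst h2
    rw [wt_succ h1, add_mul, zpow_add₀ h, ← zpow_natCast a 2, ← _root_.zpow_neg,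
      ← _root_.zpow_mul]
    have : a ^ (2 * wt j) * a ^ (-((2 : ℕ) : ℤ) * wt j) = 1 := by
      rw [← zpow_add₀ h]; simp
    linear_combination (a ^ (wt k * wt j) * qInt a k) * this
  all_goals simp

lemma dD_E2 (h : a ≠ 0) : dD N a * ((1 : Matrix (Fin N) (Fin N) ℂ) ⊗ₖ matE N a) =
    (matK N (a ^ 2) ⊗ₖ matE N a) * dD N a := by
  ext ⟨i, j⟩ ⟨k, l⟩
  simp only [dD, diagonal_mul, mul_diagonal, kroneckerMap_apply, matK, diagonal_apply, one_apply,
    matE]
  split_ifs with h1 h2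
  · subst h1
    rw [wt_succ h2, mul_add, zpow_add₀ h, ← zpow_natCast a 2, ← _root_.zpow_mul,
      mul_comm (wt i) 2]
    simp only [Nat.cast_ofNat]
    ring
  all_goals simp

lemma braid_dE (h : Root N a) : braid N a * dE N a = dE N a * braid N a := by
  rw [braid_eq, mul_assoc, mul_assoc, qR_dE h, ← mul_assoc (dD N a), mul_add, dD_E1 h.ne,
    dD_E2 h.ne, ← add_mul, mul_assoc, ← mul_assoc (tau N), mul_add, tau_kron, tau_kron,
    ← add_mul, dE, add_comm, mul_assoc]

lemma braid_dK {z : ℂ} (hz : z ≠ 0) : braid N a * dK N z = dK N z * braid N a := by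
  have e1 : qR N a (th a) * dK N z = dK N z * qR N a (th a) := by
    simp only [qR, dK, sum_mul, mul_sum, smul_mul_assoc, mul_smul_comm, ← mul_kronecker_mul,
      K_mul_Epow hz, K_mul_Fpow hz, smul_kronecker, kronecker_smul, smul_smul]
    refine sum_congr rfl fun n _ => ?_
    congr 1
    rw [← mul_pow]
    have : z⁻¹ ^ 2 * z ^ 2 = 1 := by field_simp
    rw [this]; simp
  have e2 : dD N a * dK N z = dK N z * dD N a := by
    simp only [dD, dK, matK, diagonal_kronecker_diagonal, diagonal_mul_diagonal, mul_comm]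
  rw [braid_eq, mul_assoc, mul_assoc, e1, ← mul_assoc (dD N a), e2, mul_assoc,
    ← mul_assoc (tau N), dK, tau_kron, mul_assoc]

lemma comm_sh (h : Root N a) {M : Matrix (Fin N × Fin N) (Fin N × Fin N) ℂ}
    (hM : braid N a * M = M * braid N a) : sh (braid N a) * M = M * sh (braid N a) := by
  calc sh (braid N a) * M = sh (braid N a) * (M * (braid N a * sh (braid N a))) := by
        rw [braid_mul_sh h, mul_one]
    _ = sh (braid N a) * braid N a * (M * sh (braid N a)) := by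
        rw [← mul_assoc M, ← hM]; simp only [mul_assoc]
    _ = _ := by rw [sh_mul_braid h, one_mul]

end

end Pool.Agent.H843Z.CJ
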