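import Pool.Agent.H843Z.CJ.TDefs

namespace Pool.Agent.H843Z.CJ

/-- the slice is a generator `σ₁^(±1)` or `σ₂^(±1)` of the braid group on three strands -/
def Slice.IsGen3 : Slice → Prop
  | .pos p => p ≤ 1
  | .neg p => p ≤ 1
  | _ => False

end Pool.Agent.H843Z.CJ
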