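import Pool.Agent.H843Z.CJ.CS
import Pool.Agent.H843Z.CJ.BDefs

open Finset

namespace Pool.Agent.H843Z.CJ

variable {N : ℕ} {a : ℂ}

lemma crossOp_one (g : St N) (k m : Fin N) (r : List (Fin N)) :
    crossOp 1 g (k :: m :: r) = g (k :: m :: r) := by
  simp [crossOp, Matrix.one_apply, ite_and]

lemma atPos_cancel {M M' : Matrix (Fin N × Fin N) (Fin N × Fin N) ℂ} (h : M * M' = 1) {p : ℕ}
    (hp : p ≤ 1) (g : St N) (i j k : Fin N) :
    atPos p (crossOp M) (atPos p (crossOp M') g) [i, j, k] = g [i, j, k] := by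
  interval_cases p
  · simp only [atPos]
    rw [← crossOp_mul, h, crossOp_one]
  · simp only [atPos, shift]
    rw [← crossOp_mul, h, crossOp_one]

lemma gen_dual (hr : Root N a) {s : Slice} (hs : s.IsGen3) (g : St N) {g' : St N} (hg' : HW a g') :
    ∃ g'', HW a g'' ∧ pairing 3 (s.act N a g) g'' = pairing 3 g g' := by
  cases s with
  | cup p => exact hs.elim
  | cap p => exact hs.elim
  | pos p =>
    have hp : p ≤ 1 := hs
    refine ⟨(Slice.pos (1 - p)).act N a g', (good_act hr _).hw hg', ?_⟩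
    have := adj_act hr (Slice.pos p) 3 (by simp only [Slice.Fits]; omega) g
      ((Slice.pos (1 - p)).act N a g')
    refine this.trans ?_
    simp only [pairing_three, Slice.refl, Slice.act, braid_inv hr]
    simp only [atPos_cancel (sh_mul_braid hr) (by omega : 3 - 2 - p ≤ 1)]
  | neg p =>
    have hp : p ≤ 1 := hs
    refine ⟨(Slice.neg (1 - p)).act N a g', (good_act hr _).hw hg', ?_⟩
    have := adj_act hr (Slice.neg p) 3 (by simp only [Slice.Fits]; omega) g
      ((Slice.neg (1 - p)).act N a g')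
    refine this.trans ?_
    simp only [pairing_three, Slice.refl, Slice.act, braid_inv hr]
    simp only [atPos_cancel (braid_mul_sh hr) (by omega : 3 - 2 - p ≤ 1)]

lemma braid_dual (hr : Root N a) (β : List Slice) (hβ : ∀ s ∈ β, s.IsGen3) (g : St N) {g' : St N}
    (hg' : HW a g') : ∃ g'', HW a g'' ∧ pairing 3 (run N a β g) g'' = pairing 3 g g' := by
  induction β generalizing g g' with
  | nil => exact ⟨g', hg', rfl⟩
  | cons s w ih =>
    obtain ⟨g1, h1, h2⟩ := gen_dual hr (hβ s (by simp)) g hg'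
    obtain ⟨g2, h3, h4⟩ := ih (fun t ht => hβ t (by simp [ht])) (s.act N a g) h1
    exact ⟨g2, h3, by rw [run_cons, h4, h2]⟩

lemma isTangle_braid (β : List Slice) (hβ : ∀ s ∈ β, s.IsGen3) : IsTangle 3 β 3 := by
  induction β with
  | nil => rfl
  | cons s w ih =>
    have h1 := hβ s (by simp)
    have h2 := ih fun t ht => hβ t (by simp [ht])
    cases s with
    | cup p => exact h1.elim
    | cap p => exact h1.elim
    | pos p => exact ⟨by have : p ≤ 1 := h1; simp only [Slice.Fits]; omega, h2⟩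
    | neg p => exact ⟨by have : p ≤ 1 := h1; simp only [Slice.Fits]; omega, h2⟩

lemma pairing_uY (hr : Root N a) (z : Fin N) (hz : (z : ℕ) = 0) :
    pairing 3 (uY a z) (uY a z) = 1 := by
  have hN := hr.two
  rw [pairing_eq hr (uY_hw hr z hz) (uY_hw hr z hz), sum_eq_single 0]
  · simp [co_uY hr z hz]
  · intro b _ hb; simp [co_uY hr z hz, hb]
  · intro h; exact absurd (mem_range.2 (by omega)) h

theorem amph_pos (hr : Root N a) (β : List Slice) (hβ : ∀ s ∈ β, s.IsGen3) :
    ∃ r : ℝ, 0 < r ∧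
      jones N a ((Slice.cup 1 :: β) ++ reflect 1 (Slice.cup 1 :: β)) = r := by
  have hN : 0 < N := by have := hr.two; omega
  have ht : IsTangle 1 (Slice.cup 1 :: β) 3 := ⟨by simp [Slice.Fits], isTangle_braid β hβ⟩
  have hu := uY_hw hr ⟨0, hN⟩ rfl
  have hg : HW a (run N a β (uY a ⟨0, hN⟩)) := run_hw hr β hu
  rw [jones_glue hr hN _ _ ht]
  change ∃ r : ℝ, 0 < r ∧ pairing 3 (run N a β (uY a ⟨0, hN⟩)) (run N a β (uY a ⟨0, hN⟩)) = r
  refine ⟨_, ?_, pairing_self hr hg⟩
  obtain ⟨g, h1, h2⟩ := braid_dual hr β hβ (uY a ⟨0, hN⟩) hu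
  have h3 := pairing_cs hr hg h1
  rw [h2, pairing_uY hr _ rfl, norm_pairing_self hr hg] at h3
  rcases (show (0 : ℝ) ≤ ∑ n ∈ range N, ‖co (run N a β (uY a ⟨0, hN⟩)) n‖ ^ 2 by
    positivity).eq_or_lt with h4 | h4
  · rw [← h4] at h3
    norm_num at h3
  · exact h4

end Pool.Agent.H843Z.CJ
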