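import Pool.Agent.H843Z.CJ.Fib

open Finset Real Filter Topology MeasureTheory

namespace Pool.Agent.H843Z.CJ

noncomputable section

/-- the fourth root of `exp(2 π i / N)` -/
def rt (N : ℕ) : ℂ := Complex.exp (Real.pi * Complex.I / (2 * N))

lemma rt_prim {N : ℕ} (hN : 2 ≤ N) : IsPrimitiveRoot (rt N) (4 * N) := by
  have := Complex.isPrimitiveRoot_exp (4 * N) (by omega)
  unfold rt
  convert this using 2
  have : (N : ℂ) ≠ 0 := by exact_mod_cast (by omega : N ≠ 0)
  push_cast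
  field_simp
  ring

lemma rt_root {N : ℕ} (hN : 2 ≤ N) : Root N (rt N) := root_of_prim hN (rt_prim hN)

lemma Pb_top {N : ℕ} {a : ℂ} (hN : 2 ≤ N) (ha : IsPrimitiveRoot a (4 * N)) :
    Pb a (N - 1) = N := by
  have hr := root_of_prim hN ha
  obtain ⟨M, rfl⟩ : ∃ M, N = M + 1 := ⟨N - 1, by omega⟩
  have ht : IsPrimitiveRoot (a ^ 4) (M + 1) := ha.pow (by omega) rfl
  have h := congrArg norm ht.prod_one_sub_pow_eq_order
  rw [norm_prod] at h
  have e : ‖((M : ℂ) + 1)‖ = ((M + 1 : ℕ) : ℝ) := by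
    rw [← Complex.norm_natCast]; push_cast; rfl
  rw [← e, ← h, Pb, Nat.add_sub_cancel]
  refine prod_congr rfl fun i _ => ?_
  have h1 : ‖(a ^ 2) ^ (i + 1)‖ = 1 := by simp [hr.norm]
  have h2 : (a ^ 2) ^ (i + 1) ≠ 0 := pow_ne_zero _ hr.s_ne
  have h3 : (a ^ 4) ^ (i + 1) = (a ^ 2) ^ (i + 1) * (a ^ 2) ^ (i + 1) := by
    rw [← mul_pow]; congr 1; ring
  rw [h3, inv_pow]
  generalize (a ^ 2) ^ (i + 1) = x at *
  have : 1 - x * x = -x * (x - x⁻¹) := by field_simp; ring
  rw [this, norm_mul, norm_neg, h1, one_mul]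

lemma norm_br {N : ℕ} (hN : 2 ≤ N) (k : ℕ) :
    ‖(rt N ^ 2) ^ k - (rt N ^ 2)⁻¹ ^ k‖ = |2 * sin (π / N * k)| := by
  have hN' : (N : ℂ) ≠ 0 := by exact_mod_cast (by omega : N ≠ 0)
  have e1 : (rt N ^ 2) ^ k = Complex.exp (((π / N * k : ℝ) : ℂ) * Complex.I) := by
    rw [rt, ← Complex.exp_nat_mul, ← Complex.exp_nat_mul]
    congr 1
    push_cast
    field_simp
  rw [inv_pow, e1, ← Complex.exp_neg]
  have e2 : Complex.exp (((π / N * k : ℝ) : ℂ) * Complex.I) -
      Complex.exp (-(((π / N * k : ℝ) : ℂ) * Complex.I)) =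
      ((2 * sin (π / N * k) : ℝ) : ℂ) * Complex.I := by
    rw [← neg_mul, Complex.exp_mul_I, Complex.exp_mul_I, Complex.cos_neg, Complex.sin_neg]
    push_cast
    ring
  rw [e2, norm_mul, Complex.norm_I, mul_one, Complex.norm_real, Real.norm_eq_abs]

/-- the integrand -/
def ls (t : ℝ) : ℝ := Real.log |2 * sin t|

lemma ls_int (x y : ℝ) : IntervalIntegrable ls volume x y := by
  have h : AnalyticOnNhd ℝ (fun t : ℝ => 2 * sin t) (Set.uIcc x y) :=
    fun t ht => analyticAt_const.mul (analyticOnNhd_sin t ht)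
  have := h.meromorphicOn.intervalIntegrable_log
  convert this using 1
  ext t
  simp only [ls, Real.log_abs, Function.comp]

lemma lob_eq (θ : ℝ) : lob θ = -∫ t in (0 : ℝ)..θ, ls t := rfl

lemma lob_cont : Continuous lob :=
  (intervalIntegral.continuous_primitive ls_int 0).neg

lemma lob_zero : lob 0 = 0 := by simp [lob]

lemma lob_sub (x y : ℝ) : ∫ t in x..y, ls t = lob x - lob y := by
  rw [lob_eq, lob_eq, ← intervalIntegral.integral_interval_sub_left (ls_int 0 y) (ls_int 0 x)]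
  ring

lemma ls_mono {x y : ℝ} (h0 : 0 < x) (hxy : x ≤ y) (hy : y ≤ π / 2) : ls x ≤ ls y := by
  have h1 : 0 < sin x := sin_pos_of_pos_of_lt_pi h0 (by linarith [pi_pos])
  have h2 : sin x ≤ sin y := sin_le_sin_of_le_of_le_pi_div_two (by linarith [pi_pos]) hy hxy
  unfold ls
  rw [abs_of_pos (by linarith), abs_of_pos (by linarith)]
  exact Real.log_le_log (by linarith) (by linarith)

lemma log_Pb {N : ℕ} (hN : 2 ≤ N) {m : ℕ} (hm : m < N) :
    Real.log (Pb (rt N) m) = ∑ i ∈ range m, ls (π / N * ((i + 1 : ℕ) : ℝ)) := by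
  rw [Pb, Real.log_prod]
  · exact sum_congr rfl fun i _ => by rw [norm_br hN, ls]
  · intro i hi
    have := mem_range.1 hi
    exact norm_ne_zero_iff.2 ((rt_root hN).br _ (by omega) (by omega))

lemma log_Pb_le {N : ℕ} (hN : 2 ≤ N) {m : ℕ} (hm : 2 * (m + 1) ≤ N) :
    π / N * Real.log (Pb (rt N) m) ≤ lob (π / N) - lob (π / N * (m + 1)) := by
  have hN' : (0 : ℝ) < N := by exact_mod_cast (by omega : 0 < N)
  have hc : 0 < π / N := div_pos pi_pos hN'
  have hm' : 2 * ((m : ℝ) + 1) ≤ N := by exact_mod_cast hm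
  have h := MonotoneOn.sum_le_integral (f := fun x => ls (π / N * x)) (x₀ := 1) (a := m) (by
    intro x hx y hy hxy
    refine ls_mono (mul_pos hc (by linarith [hx.1])) (mul_le_mul_of_nonneg_left hxy hc.le) ?_
    have : π / N * y ≤ π / N * (N / 2) := mul_le_mul_of_nonneg_left (by linarith [hy.2]) hc.le
    refine this.trans (le_of_eq ?_)
    field_simp)
  rw [intervalIntegral.integral_comp_mul_left _ hc.ne', lob_sub, smul_eq_mul, mul_one,
    add_comm (1 : ℝ) m] at h
  rw [log_Pb hN (by omega)]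
  have e : ∑ i ∈ range m, ls (π / N * ((i + 1 : ℕ) : ℝ)) = ∑ i ∈ range m, ls (π / N * (1 + i)) :=
    sum_congr rfl fun i _ => by push_cast; rw [add_comm]
  rw [e]
  have := mul_le_mul_of_nonneg_left h hc.le
  rwa [← mul_assoc, mul_inv_cancel₀ hc.ne', one_mul] at this

lemma lob_half : lob (π / 2) = 0 := by
  have h : ∫ t in (0 : ℝ)..(π / 2), ls t = ∫ t in (0 : ℝ)..(π / 2), (Real.log 2 + Real.log (sin t)) := by
    refine intervalIntegral.integral_congr_ae ?_
    refine Eventually.of_forall fun t ht => ?_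
    rw [Set.uIoc_of_le (by positivity)] at ht
    have : 0 < sin t := sin_pos_of_pos_of_lt_pi ht.1 (by linarith [ht.2, pi_pos])
    rw [ls, abs_of_pos (by linarith), Real.log_mul two_ne_zero this.ne']
  have hi : IntervalIntegrable (fun t => Real.log (sin t)) volume 0 (π / 2) :=
    intervalIntegrable_log_sin
  rw [lob_eq, h, intervalIntegral.integral_add (by simp) hi,
    integral_log_sin_zero_pi_div_two]
  simp
  ring

lemma lob_third : 3 * lob (π / 3) = 2 * lob (π / 6) := by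
  have h1 : ∫ t in (0 : ℝ)..(π / 3), ls t = 2 * ∫ u in (0 : ℝ)..(π / 6), ls (2 * u) := by
    rw [intervalIntegral.integral_comp_mul_left _ two_ne_zero, smul_eq_mul]
    have : 2 * (π / 6) = π / 3 := by ring
    rw [this, mul_zero]
    ring
  have h2 : ∫ u in (0 : ℝ)..(π / 6), ls (2 * u) =
      ∫ u in (0 : ℝ)..(π / 6), (ls u + ls (π / 2 - u)) := by
    refine intervalIntegral.integral_congr_ae ?_
    refine Eventually.of_forall fun t ht => ?_
    rw [Set.uIoc_of_le (by positivity)] at ht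
    have h3 : 0 < sin t := sin_pos_of_pos_of_lt_pi ht.1 (by linarith [ht.2, pi_pos])
    have h4 : 0 < cos t := cos_pos_of_mem_Ioo ⟨by linarith [ht.1, pi_pos], by linarith [ht.2, pi_pos]⟩
    rw [ls, ls, ls, sin_pi_div_two_sub, sin_two_mul, ← Real.log_mul (by positivity) (by positivity),
      ← abs_mul]
    congr 2
    ring
  have h3 : IntervalIntegrable (fun u => ls (π / 2 - u)) volume 0 (π / 6) := by
    have := (ls_int (π / 2) (π / 3)).comp_sub_left (π / 2)
    convert this using 1 <;> ring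
  rw [h2, intervalIntegral.integral_add (ls_int _ _) h3, intervalIntegral.integral_comp_sub_left,
    lob_sub, lob_sub, lob_sub, lob_zero, sub_zero, lob_half] at h1
  have : π / 2 - π / 6 = π / 3 := by ring
  rw [this] at h1
  linarith

lemma tendsto_sixth : Tendsto (fun N : ℕ => π / N * ((N / 6 : ℕ) : ℝ)) atTop (𝓝 (π / 6)) := by
  have h := tendsto_nat_floor_mul_div_atTop (a := (1 / 6 : ℝ)) (by norm_num)
  have h2 := (h.comp tendsto_natCast_atTop_atTop).const_mul π
  have e : π * (1 / 6) = π / 6 := by ring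
  rw [e] at h2
  refine h2.congr fun N => ?_
  have : ⌊(1 / 6 : ℝ) * N⌋₊ = N / 6 := by
    rw [← Nat.floor_div_eq_div (K := ℝ)]
    congr 1
    push_cast
    ring
  simp only [Function.comp, this]
  ring

theorem fib_growth (j : ℕ) (ε : ℝ) (hε : 0 < ε) : ∀ᶠ N : ℕ in atTop,
    j * (6 * lob (π / 3)) - ε ≤ 2 * π / N * Real.log ‖kashaev N (fibDiagram j)‖ := by
  have h1 : Tendsto (fun N : ℕ => π / (N : ℝ)) atTop (𝓝 0) := tendsto_const_div_atTop_nhds_zero_nat π
  have h2 : Tendsto (fun N : ℕ => 4 * j * (lob (π / N * ((N / 6 : ℕ) : ℝ)) - lob (π / N))) atTop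
      (𝓝 (4 * j * (lob (π / 6) - lob 0))) :=
    (((lob_cont.tendsto _).comp tendsto_sixth).sub ((lob_cont.tendsto _).comp h1)).const_mul _
  have h3 : j * (6 * lob (π / 3)) - ε < 4 * j * (lob (π / 6) - lob 0) := by
    rw [lob_zero]
    have := lob_third
    have e : 6 * lob (π / 3) = 4 * lob (π / 6) := by linarith
    rw [e]
    linarith
  filter_upwards [h2.eventually (lt_mem_nhds h3), eventually_ge_atTop 6] with N hN h6
  refine hN.le.trans ?_
  have hN2 : 2 ≤ N := by omega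
  have hr := rt_root hN2
  obtain ⟨m, hm⟩ : ∃ m, N / 6 = m + 1 := ⟨N / 6 - 1, by omega⟩
  have hmN : m < N := by omega
  have h4 := log_Pb_le hN2 (m := m) (by omega)
  have h5 := fib_lower hr (Pb_top hN2 (rt_prim hN2)) hmN j
  have hp := Pb_pos hr hmN
  have h6 := Real.log_le_log (by positivity) h5
  rw [Real.log_pow, Real.log_pow, Real.log_inv] at h6
  have hN' : (0 : ℝ) < N := by exact_mod_cast (by omega : 0 < N)
  have hc : 0 < π / N := div_pos pi_pos hN'
  have e : 2 * π / N = 2 * (π / N) := by ring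
  rw [hm, e]
  change _ ≤ 2 * (π / N) * Real.log ‖jones N (rt N) (fibDiagram j)‖
  push_cast at h6 ⊢
  have hj : (0 : ℝ) ≤ j := Nat.cast_nonneg j
  have h7 := mul_le_mul_of_nonneg_left h6 hc.le
  have h8 := mul_le_mul_of_nonneg_left h4 hj
  nlinarith

end

end Pool.Agent.H843Z.CJ
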