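import Pool.Agent.H843Z.CJ.Asym

namespace Pool.Agent.H843Z.CJ

theorem jones_cs {N : ℕ} {a : ℂ} (hr : Root N a) (x y : List Slice) (hx : IsTangle 1 x 3)
    (hy : IsTangle 1 y 3) :
    ‖jones N a (x ++ reflect 1 y)‖ ^ 2 ≤
      ‖jones N a (x ++ reflect 1 x)‖ * ‖jones N a (y ++ reflect 1 y)‖ := by
  have hN : 0 < N := by have := hr.two; omega
  rw [jones_glue hr hN x y hy, jones_glue hr hN x x hx, jones_glue hr hN y y hy]
  exact pairing_cs hr (run_hw hr x (vac_hw _ rfl)) (run_hw hr y (vac_hw _ rfl))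

theorem kashaev_cs {N : ℕ} (hN : 2 ≤ N) (x y : List Slice) (hx : IsTangle 1 x 3)
    (hy : IsTangle 1 y 3) :
    ‖kashaev N (x ++ reflect 1 y)‖ ^ 2 ≤
      ‖kashaev N (x ++ reflect 1 x)‖ * ‖kashaev N (y ++ reflect 1 y)‖ :=
  jones_cs (rt_root hN) x y hx hy

end Pool.Agent.H843Z.CJ
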