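import Mathlib

/-! Coloured Jones invariant (Reshetikhin-Turaev functor of the `N`-dimensional irreducible
`U_q(sl_2)`-module) of sliced tangle diagrams.  Throughout `a = t^(1/4)`. -/

open scoped Kronecker

namespace Pool.Agent.H843Z.CJ

noncomputable section

/-- quantum integer `[n] = (t^(n/2) - t^(-n/2)) / (t^(1/2) - t^(-1/2))`, `t = a^4` -/
def qInt (a : ℂ) (n : ℕ) : ℂ := (a ^ (2 * n) - a⁻¹ ^ (2 * n)) / (a ^ 2 - a⁻¹ ^ 2)

/-- quantum factorial `[n]! = [1][2]...[n]` -/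
def qFact (a : ℂ) (n : ℕ) : ℂ := ∏ i ∈ Finset.range n, qInt a (i + 1)

/-- weight of the basis vector `e_i` of `V_N`: `H e_i = (N - 1 - 2 i) e_i` -/
def wt {N : ℕ} (i : Fin N) : ℤ := (N : ℤ) - 1 - 2 * (i : ℕ)

/-- `E e_j = [j] e_(j-1)` on `V_N` -/
def matE (N : ℕ) (a : ℂ) : Matrix (Fin N) (Fin N) ℂ :=
  fun i j => if (j : ℕ) = i + 1 then qInt a j else 0

/-- `F e_j = [N - 1 - j] e_(j+1)` on `V_N` -/
def matF (N : ℕ) (a : ℂ) : Matrix (Fin N) (Fin N) ℂ :=
  fun i j => if (i : ℕ) = j + 1 then qInt a (N - 1 - j) else 0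

/-- the universal `R`-matrix
`t^(H ⊗ H / 4) ∑ₙ t^(n(n-1)/4) (t^(1/2) - t^(-1/2))^n / [n]! • E^n ⊗ F^n` on `V_N ⊗ V_N` -/
def rMat (N : ℕ) (a : ℂ) : Matrix (Fin N × Fin N) (Fin N × Fin N) ℂ :=
  Matrix.diagonal (fun p => a ^ (wt p.1 * wt p.2)) *
    ∑ n ∈ Finset.range N,
      (a ^ (n * (n - 1)) * (a ^ 2 - a⁻¹ ^ 2) ^ n / qFact a n) • ((matE N a ^ n) ⊗ₖ (matF N a ^ n))

/-- the braiding: `R` followed by the flip of the two tensor factors -/
def braid (N : ℕ) (a : ℂ) : Matrix (Fin N × Fin N) (Fin N × Fin N) ℂ :=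
  (rMat N a).submatrix Prod.swap id

/-- coefficient of `e_i ⊗ e_(N-1-i)` in the invariant vector (cup) of `V_N ⊗ V_N` for the
coproduct `Δ E = E ⊗ K + 1 ⊗ E`, `Δ F = F ⊗ 1 + K⁻¹ ⊗ F`, `K = t^(H/2)` -/
def cupCoef (N : ℕ) (a : ℂ) (i : ℕ) : ℂ :=
  (-1) ^ i * a ^ (2 * (i : ℤ) * ((N : ℤ) - 2 - i)) *
    (qFact a (N - 1) / (qFact a i * qFact a (N - 1 - i)))

/-- the cup `∑ᵢ cupCoef i • e_i ⊗ e_(N-1-i)` -/
def cupVec (N : ℕ) (a : ℂ) (i j : Fin N) : ℂ :=
  if (i : ℕ) + j = N - 1 then cupCoef N a i else 0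

/-- the cap, the invariant form dual to the cup (both zigzag identities hold) -/
def capVec (N : ℕ) (a : ℂ) (i j : Fin N) : ℂ :=
  if (i : ℕ) + j = N - 1 then (cupCoef N a j)⁻¹ else 0

/-- Vectors of the tensor powers of `V_N`: the value at `[i₁, ..., iₙ]` is the coefficient of
`e_(i₁) ⊗ ... ⊗ e_(iₙ)`. -/
abbrev St (N : ℕ) : Type := List (Fin N) → ℂ

/-- `M ⊗ id`, for `M` acting on the first two tensor factors -/
def crossOp {N : ℕ} (M : Matrix (Fin N × Fin N) (Fin N × Fin N) ℂ) (h : St N) : St N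
  | k :: m :: r => ∑ i, ∑ j, M (k, m) (i, j) * h (i :: j :: r)
  | _ => 0

/-- `cup ⊗ id` -/
def cupOp {N : ℕ} (a : ℂ) (h : St N) : St N
  | k :: m :: r => cupVec N a k m * h r
  | _ => 0

/-- `cap ⊗ id` -/
def capOp {N : ℕ} (a : ℂ) (h : St N) : St N :=
  fun r => ∑ i, ∑ j, capVec N a i j * h (i :: j :: r)

/-- `id_V ⊗ T` -/
def shift {N : ℕ} (T : St N → St N) (h : St N) : St N
  | k :: r => T (fun r' => h (k :: r')) r
  | [] => 0

/-- `id_(V^p) ⊗ T` -/
def atPos {N : ℕ} : ℕ → (St N → St N) → St N → St N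
  | 0, T => T
  | p + 1, T => shift (atPos p T)

/-- Elementary slices of an unoriented tangle diagram in Morse position; `p` is the number of
vertical strands to the left of the local minimum, local maximum or crossing. -/
inductive Slice : Type
  | cup (p : ℕ) : Slice
  | cap (p : ℕ) : Slice
  | pos (p : ℕ) : Slice
  | neg (p : ℕ) : Slice

/-- the linear map assigned to a slice -/
def Slice.act (N : ℕ) (a : ℂ) : Slice → St N → St N
  | .cup p => atPos p (cupOp a)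
  | .cap p => atPos p (capOp a)
  | .pos p => atPos p (crossOp (braid N a))
  | .neg p => atPos p (crossOp (braid N a)⁻¹)

/-- the linear map assigned to a diagram (slices listed from bottom to top) -/
def run (N : ℕ) (a : ℂ) (w : List Slice) (h : St N) : St N :=
  w.foldl (fun g s => s.act N a g) h

/-- Normalised coloured Jones invariant (blackboard framing) of a `(1,1)`-tangle diagram: the
scalar by which its map acts on `V_N`, read off on `e_0`. -/
def jones (N : ℕ) (a : ℂ) (w : List Slice) : ℂ :=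
  if hN : 0 < N then run N a w (fun l => if l = [⟨0, hN⟩] then 1 else 0) [⟨0, hN⟩] else 0

/-- Kashaev invariant (blackboard framing): the value at `t = a^4 = exp(2 π i / N)` -/
def kashaev (N : ℕ) (w : List Slice) : ℂ :=
  jones N (Complex.exp (Real.pi * Complex.I / (2 * N))) w

end

end Pool.Agent.H843Z.CJ
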