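import Pool.Agent.H843Z.CJ.Defs

namespace Pool.Agent.H843Z.CJ

/-- the Lobachevsky function `Λ(θ) = - ∫₀^θ log |2 sin t| dt` -/
noncomputable def lob (θ : ℝ) : ℝ := -∫ t in (0 : ℝ)..θ, Real.log |2 * Real.sin t|

/-- Long 4-plat diagram of the two-bridge link with Conway notation `C(2, 1, ..., 1, 2)`
(`2 j - 2` ones, `2 j + 2` crossings): the 3-braid `σ₁ (σ₁ σ₂⁻¹)^j σ₂⁻¹` between a cup on the
strands 2, 3 and a cap on the strands 1, 2. -/
def fibDiagram (j : ℕ) : List Slice :=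
  [Slice.cup 1, Slice.pos 0] ++ (List.replicate j [Slice.pos 0, Slice.neg 1]).flatten ++
    [Slice.neg 1, Slice.cap 0]

end Pool.Agent.H843Z.CJ
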