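import Pool.Agent.H843Z.CJ.Pos2
import Pool.Agent.H843Z.CJ.FDefs

open scoped Kronecker Matrix
open Matrix Finset

namespace Pool.Agent.H843Z.CJ

noncomputable section

variable {N : ℕ} {a : ℂ}

lemma braid_apply (x y i j : Fin N) : braid N a (x, y) (i, j) =
    a ^ (wt y * wt x) * ∑ n ∈ range N, th a n * ((matE N a ^ n) y i * (matF N a ^ n) x j) := by
  simp [braid, rMat, diagonal_mul, Matrix.sum_apply, kroneckerMap_apply, th]

lemma braid_zero (hN : 0 < N) (x y z j : Fin N) (hz : (z : ℕ) = 0) : braid N a (x, y) (z, j) =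
    if y = z ∧ x = j then a ^ (wt y * wt x) else 0 := by
  rw [braid_apply, sum_eq_single 0]
  · simp only [th_zero, pow_zero, one_apply, one_mul]
    by_cases h1 : y = z <;> by_cases h2 : x = j <;> simp [h1, h2]
  · intro n _ hn
    rw [E_pow_apply, if_neg (by omega)]
    simp
  · intro h; exact absurd (mem_range.2 hN) h

lemma E_pow_zero (z n : Fin N) (hz : (z : ℕ) = 0) (m : ℕ) :
    (matE N a ^ m) z n = if (n : ℕ) = m then qFact a n else 0 := by
  rw [E_pow_apply, hz, zero_add]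
  split_ifs with h
  · simp [qFact, h]
  · rfl

lemma braid_top (hr : Root N a) (n z : Fin N) (hz : (z : ℕ) = 0) : braid N a (n, z) (n, z) =
    a ^ (wt z * wt n) * (th a n * (qFact a n * qFact a n)) := by
  rw [braid_apply, sum_eq_single (n : ℕ)]
  · rw [← E_conj hr, ← conjTranspose_pow, conjTranspose_apply, E_pow_zero z n hz, if_pos rfl,
      hr.star_qFact]
  · intro m _ hm
    rw [E_pow_zero z n hz, if_neg (Ne.symm hm)]
    simp
  · intro h; exact absurd (mem_range.2 n.2) h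

lemma Root.norm (hr : Root N a) : ‖a‖ = 1 := by
  have h1 : ‖a‖ = ‖a‖⁻¹ := by rw [← norm_inv, ← hr.conj, norm_star]
  have h2 : ‖a‖ ≠ 0 := norm_ne_zero_iff.2 hr.ne
  have h3 : ‖a‖ * ‖a‖ = 1 := by
    nth_rewrite 1 [h1]
    exact inv_mul_cancel₀ h2
  nlinarith [norm_nonneg a]

lemma Root.norm_cup (hr : Root N a) {i : ℕ} (hi : i < N) : ‖cupCoef N a i‖ = 1 := by
  rw [hr.cupCoef_eq hi]; simp [hr.norm]

/-- `|{1}{2}...{n}|` -/
def Pb (a : ℂ) (n : ℕ) : ℝ := ∏ i ∈ range n, ‖(a ^ 2) ^ (i + 1) - (a ^ 2)⁻¹ ^ (i + 1)‖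

lemma Pb_eq (hr : Root N a) (n : ℕ) : Pb a n = ‖a ^ 2 - (a ^ 2)⁻¹‖ ^ n * ‖qFact a n‖ := by
  have hd : ‖a ^ 2 - (a ^ 2)⁻¹‖ ≠ 0 := norm_ne_zero_iff.2 hr.d_ne
  induction n with
  | zero => simp [Pb]
  | succ n ih =>
    rw [Pb, prod_range_succ, ← Pb, ih, qFact_succ, qInt_eq, norm_mul, norm_div]
    generalize ‖a ^ 2 - (a ^ 2)⁻¹‖ = d at *
    generalize ‖(a ^ 2) ^ (n + 1) - (a ^ 2)⁻¹ ^ (n + 1)‖ = e
    rw [pow_succ]
    field_simp

lemma Pb_mul (hr : Root N a) {i : ℕ} (hi : i ≤ N - 1) : Pb a i * Pb a (N - 1 - i) = Pb a (N - 1) := by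
  rw [Pb_eq hr, Pb_eq hr, Pb_eq hr, ← hr.qFact_mul hi, norm_mul]
  have : N - 1 = i + (N - 1 - i) := by omega
  nth_rewrite 3 [this]
  rw [pow_add]
  ring

lemma Pb_pos (hr : Root N a) {n : ℕ} (hn : n < N) : 0 < Pb a n := by
  rw [Pb_eq hr]
  exact mul_pos (pow_pos (norm_pos_iff.2 hr.d_ne) _) (norm_pos_iff.2 (hr.qFact_ne hn))

/-- one crossing -/
def v0 (a : ℂ) (z : Fin N) : St N := (Slice.pos 0).act N a (uY a z)

lemma v0_apply (hN : 0 < N) (z x y k : Fin N) (hz : (z : ℕ) = 0) :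
    v0 a z [x, y, k] = if y = z then a ^ (wt y * wt x) * cupVec N a x k else 0 := by
  simp only [v0, Slice.act, atPos, crossOp]
  rw [sum_eq_single z]
  · have := uY_apply (a := a) z z
    simp only [if_true] at this
    simp only [braid_zero hN _ _ _ _ hz, this]
    by_cases h : y = z <;> simp [h]
  · intro b _ hb
    have := uY_apply (a := a) z b
    simp only [if_neg hb] at this
    simp [this]
  · simp

lemma norm_co_v0 (hr : Root N a) (z : Fin N) (hz : (z : ℕ) = 0) {n : ℕ} (hn : n < N) :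
    ‖co (v0 a z) n‖ = 1 := by
  rw [co, dif_pos hn, v0_apply (by omega) _ _ _ _ hz, if_pos (Fin.ext hz.symm), cupVec,
    if_pos (by simp; omega), norm_mul, hr.norm_cup hn, norm_zpow, hr.norm]
  simp

lemma norm_co_v1 (hr : Root N a) (z : Fin N) (hz : (z : ℕ) = 0) {n : ℕ} (hn : n < N) :
    ‖co ((Slice.pos 0).act N a (v0 a z)) n‖ = Pb a n := by
  have hN : 0 < N := by omega
  have ez : (⟨0, hN⟩ : Fin N) = z := Fin.ext hz.symm
  rw [co, dif_pos hn]
  simp only [Slice.act, atPos, crossOp, v0_apply hN _ _ _ _ hz, ez]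
  rw [sum_eq_single ⟨n, hn⟩, sum_eq_single z, if_pos rfl, braid_top hr _ _ hz, cupVec,
    if_pos (by simp; omega), Pb_eq hr]
  · have h1 : ‖qFact a n‖ ≠ 0 := norm_ne_zero_iff.2 (hr.qFact_ne hn)
    simp only [norm_mul, hr.norm_cup hn, norm_zpow, hr.norm, _root_.one_zpow, th, norm_div,
      norm_pow, one_pow, inv_pow]
    field_simp
  · intro b _ hb; simp [hb]
  · simp
  · intro b _ hb
    refine sum_eq_zero fun j _ => ?_
    rw [cupVec, if_neg (c := (b : ℕ) + _ = N - 1)]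
    · simp
    · intro h0
      exact hb (Fin.ext (by simp at h0 ⊢; omega))
  · simp

/-- the alternating sequence of half diagrams -/
def wv (a : ℂ) (z : Fin N) : ℕ → St N
  | 0 => v0 a z
  | j + 1 => (if Even j then Slice.pos 0 else Slice.neg 1).act N a (wv a z j)

lemma wv_hw (hr : Root N a) (z : Fin N) (hz : (z : ℕ) = 0) (j : ℕ) : HW a (wv a z j) := by
  induction j with
  | zero => exact (good_act hr (Slice.pos 0)).hw (uY_hw hr z hz)
  | succ j ih => exact (good_act hr _).hw ih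

lemma wv_move (hr : Root N a) (z : Fin N) {j k : ℕ} (h : Even j ↔ ¬ Even k) :
    pairing 3 (wv a z (j + 1)) (wv a z k) = pairing 3 (wv a z j) (wv a z (k + 1)) := by
  simp only [wv]
  by_cases hj : Even j
  · rw [if_pos hj, if_neg (h.1 hj)]
    exact adj_act hr (Slice.pos 0) 3 (by simp [Slice.Fits]) _ _
  · rw [if_neg hj, if_pos (by tauto)]
    exact adj_act hr (Slice.neg 1) 3 (by simp [Slice.Fits]) _ _

lemma wv_mid (hr : Root N a) (z : Fin N) (i k : ℕ) :
    pairing 3 (wv a z (k + i + i)) (wv a z k) = pairing 3 (wv a z (k + i)) (wv a z (k + i)) := by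
  induction i generalizing k with
  | zero => rfl
  | succ i ih =>
    have e1 : k + (i + 1) + (i + 1) = (k + 1 + i + i) + 1 := by omega
    have e2 : k + (i + 1) = k + 1 + i := by omega
    rw [e1, e2, wv_move hr z, ih]
    simp only [Nat.even_iff]
    omega

lemma run_rep (z : Fin N) (j : ℕ) :
    run N a (List.replicate j [Slice.pos 0, Slice.neg 1]).flatten (v0 a z) = wv a z (j + j) := by
  induction j with
  | zero => rfl
  | succ j ih =>
    rw [List.replicate_succ', List.flatten_append, run_append, ih]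
    have e : j + 1 + (j + 1) = j + j + 1 + 1 := by omega
    have h1 : Even (j + j) := ⟨j, rfl⟩
    have h2 : ¬ Even (j + j + 1) := by rw [Nat.even_iff]; omega
    rw [e, wv, wv, if_pos h1, if_neg h2]
    rfl

lemma jones_fib (hr : Root N a) (hN : 0 < N) (j : ℕ) :
    jones N a (fibDiagram j) = pairing 3 (wv a ⟨0, hN⟩ j) (wv a ⟨0, hN⟩ j) := by
  have h := jones_glue hr hN
    ([Slice.cup 1, Slice.pos 0] ++ (List.replicate j [Slice.pos 0, Slice.neg 1]).flatten)
    [Slice.cup 1, Slice.pos 0] (by simp [IsTangle, Slice.Fits, Slice.out])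
  have e : reflect 1 [Slice.cup 1, Slice.pos 0] = [Slice.neg 1, Slice.cap 0] := rfl
  rw [e, run_append] at h
  have h2 := wv_mid hr ⟨0, hN⟩ j 0
  simp only [zero_add] at h2
  rw [← h2, ← run_rep]
  exact h

lemma fib_convex (hr : Root N a) (j : ℕ) : ‖jones N a (fibDiagram (j + 1))‖ ^ 2 ≤
    ‖jones N a (fibDiagram (j + 2))‖ * ‖jones N a (fibDiagram j)‖ := by
  have hN : 0 < N := by have := hr.two; omega
  rw [jones_fib hr hN, jones_fib hr hN, jones_fib hr hN, ← wv_mid hr _ 1 j]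
  exact pairing_cs hr (wv_hw hr _ rfl _) (wv_hw hr _ rfl _)

lemma fib_zero (hr : Root N a) : ‖jones N a (fibDiagram 0)‖ = N := by
  have hN : 0 < N := by have := hr.two; omega
  rw [jones_fib hr hN, norm_pairing_self hr (wv_hw hr _ rfl _)]
  rw [sum_congr rfl (g := fun _ => (1 : ℝ))]
  · simp
  · intro n hn
    rw [wv, norm_co_v0 hr _ rfl (mem_range.1 hn), one_pow]

lemma fib_one (hr : Root N a) :
    ‖jones N a (fibDiagram 1)‖ = ∑ n ∈ range N, Pb a n ^ 2 := by
  have hN : 0 < N := by have := hr.two; omega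
  rw [jones_fib hr hN, norm_pairing_self hr (wv_hw hr _ rfl _)]
  refine sum_congr rfl fun n hn => ?_
  rw [wv, if_pos (by simp), wv, norm_co_v1 hr _ rfl (mem_range.1 hn)]

lemma convex_pow {t : ℕ → ℝ} (h0 : 0 < t 0) (h1 : 0 < t 1)
    (hc : ∀ j, t (j + 1) ^ 2 ≤ t (j + 2) * t j) (j : ℕ) : t 0 * (t 1 / t 0) ^ j ≤ t j := by
  have hr : 0 < t 1 / t 0 := div_pos h1 h0
  have key : ∀ j, 0 < t j ∧ (t 1 / t 0) * t j ≤ t (j + 1) := by
    intro j
    induction j with
    | zero => exact ⟨h0, by rw [div_mul_cancel₀ _ h0.ne']⟩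
    | succ j ih =>
      have hp : 0 < t (j + 1) := lt_of_lt_of_le (mul_pos hr ih.1) ih.2
      refine ⟨hp, ?_⟩
      have := hc j
      have h2 : t 1 / t 0 * t (j + 1) * t j ≤ t (j + 2) * t j := by nlinarith [ih.2]
      exact le_of_mul_le_mul_right h2 ih.1
  induction j with
  | zero => simp
  | succ j ih =>
    refine le_trans ?_ (key j).2
    rw [pow_succ]
    nlinarith

/-- growth of the invariants of the diagrams in terms of a product of sines -/
theorem fib_lower (hr : Root N a) (hP : Pb a (N - 1) = N) {m : ℕ} (hm : m < N) (j : ℕ) :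
    ((Pb a m)⁻¹ ^ 2) ^ j ≤ ‖jones N a (fibDiagram j)‖ := by
  have hN : (2 : ℝ) ≤ N := by exact_mod_cast hr.two
  have hp := Pb_pos hr hm
  have h1 : (N * (Pb a m)⁻¹) ^ 2 ≤ ‖jones N a (fibDiagram 1)‖ := by
    rw [fib_one hr]
    have e : N * (Pb a m)⁻¹ = Pb a (N - 1 - m) := by
      rw [← hP, ← Pb_mul hr (i := m) (by omega)]
      field_simp
    rw [e]
    exact single_le_sum (f := fun n => Pb a n ^ 2) (fun _ _ => sq_nonneg _)
      (mem_range.2 (by omega))
  have h2 := convex_pow (t := fun j => ‖jones N a (fibDiagram j)‖)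
    (by simp only [fib_zero hr]; linarith) (lt_of_lt_of_le (by positivity) h1)
    (fib_convex hr) j
  simp only [fib_zero hr] at h2
  refine le_trans ?_ h2
  have h3 : (Pb a m)⁻¹ ^ 2 ≤ ‖jones N a (fibDiagram 1)‖ / N := by
    rw [le_div_iff₀ (by linarith)]
    refine le_trans ?_ h1
    rw [mul_pow]
    have : 0 < (Pb a m)⁻¹ ^ 2 := by positivity
    nlinarith
  have h4 := pow_le_pow_left₀ (by positivity) h3 j
  have h5 : 0 ≤ (‖jones N a (fibDiagram 1)‖ / N) ^ j := by positivity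
  nlinarith

end

end Pool.Agent.H843Z.CJ
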