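import Pool.Agent.H843Z.CJ.Adj

open scoped Kronecker Matrix
open Matrix Finset

namespace Pool.Agent.H843Z.CJ

noncomputable section

variable {N : ℕ} {a : ℂ}

lemma E_sum (k : Fin N) (f : Fin N → ℂ) : ∑ b, matE N a k b * f b =
    if h : (k : ℕ) + 1 < N then qInt a (k + 1) * f ⟨k + 1, h⟩ else 0 := by
  have := E_mul (a := a) (Matrix.of fun (b : Fin N) (_ : Unit) => f b) k ()
  simpa [mul_apply] using this

lemma F_sum (k : Fin N) (f : Fin N → ℂ) : ∑ b, matF N a k b * f b =
    if h : 0 < (k : ℕ) then qInt a (N - k) * f ⟨k - 1, by have := k.2; omega⟩ else 0 := by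
  have := F_mul (a := a) (Matrix.of fun (b : Fin N) (_ : Unit) => f b) k ()
  simpa [mul_apply] using this

lemma HW.supp {g : St N} (hg : HW a g) {i j k : Fin N} (h : (i : ℕ) + j + k ≠ N - 1) :
    g [i, j, k] = 0 := by
  by_contra h0
  have h1 := mul_right_cancel₀ h0 (hg.k 2 two_ne_zero [i, j, k])
  simp only [Kp_cons, Kp_nil, mul_one] at h1
  rw [← zpow_add₀ two_ne_zero, ← zpow_add₀ two_ne_zero, ← zpow_natCast] at h1
  have h2 : (2 : ℝ) ^ (wt i + (wt j + wt k)) = (2 : ℝ) ^ ((N - 1 : ℕ) : ℤ) := by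
    have := congrArg norm h1
    simpa only [norm_zpow, Complex.norm_ofNat] using this
  have h3 := zpow_right_injective₀ (by norm_num : (0 : ℝ) < 2) (by norm_num) h2
  unfold wt at h3
  have := i.2
  omega

/-- coordinates on highest weight vectors in the third tensor power -/
def co (g : St N) (n : ℕ) : ℂ :=
  if h : n < N then g [⟨n, h⟩, ⟨0, by omega⟩, ⟨N - 1 - n, by omega⟩] else 0

lemma co_ge (g : St N) {n : ℕ} (h : N ≤ n) : co g n = 0 := dif_neg (by omega)

lemma HW.e3 {g : St N} (hg : HW a g) (i j k : Fin N) :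
    (∑ b, matE N a i b * g [b, j, k]) * ((a ^ 2) ^ wt j * (a ^ 2) ^ wt k) +
      ((∑ b, matE N a j b * g [i, b, k]) * (a ^ 2) ^ wt k + ∑ b, matE N a k b * g [i, j, b]) = 0 := by
  simpa [Et] using hg.e [i, j, k]

lemma HW.ker (hr : Root N a) {g : St N} (hg : HW a g) (h0 : ∀ n, co g n = 0) (i j k : Fin N) :
    g [i, j, k] = 0 := by
  obtain ⟨j, hj⟩ := j
  induction j generalizing i k with
  | zero =>
    by_cases h : (i : ℕ) + 0 + k = N - 1
    · have := h0 i
      rw [co, dif_pos i.2] at this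
      have e : k = ⟨N - 1 - i, by omega⟩ := Fin.ext (by simp; omega)
      rw [e]
      exact this
    · exact hg.supp h
  | succ j ih =>
    have := hg.e3 i ⟨j, by omega⟩ k
    simp only [ih _ _ (by omega : j < N), mul_zero, sum_const_zero, zero_mul, zero_add,
      add_zero] at this
    rw [E_sum, dif_pos hj] at this
    have h1 : (a ^ 2) ^ wt k ≠ 0 := zpow_ne_zero _ hr.s_ne
    have h2 := hr.qInt_ne (n := j + 1) (by omega) hj
    simpa [h1, h2, hr.ne] using this

lemma crossOp_add (M M' : Matrix (Fin N × Fin N) (Fin N × Fin N) ℂ) (h : St N) (l) :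
    crossOp (M + M') h l = crossOp M h l + crossOp M' h l := by
  match l with
  | [] => simp [crossOp]
  | [_] => simp [crossOp]
  | k :: m :: r => simp [crossOp, add_mul, sum_add_distrib]

lemma crossOp_smul (c : ℂ) (M : Matrix (Fin N × Fin N) (Fin N × Fin N) ℂ) (h : St N) (l) :
    crossOp (c • M) h l = c * crossOp M h l := by
  match l with
  | [] => simp [crossOp]
  | [_] => simp [crossOp]
  | k :: m :: r => simp [crossOp, mul_sum, mul_assoc]

lemma crossOp_dK (z : ℂ) (h : St N) (k m : Fin N) (r) :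
    crossOp (dK N z) h (k :: m :: r) = z ^ wt k * z ^ wt m * h (k :: m :: r) := by
  simp [crossOp, dK, matK, diagonal_apply]

lemma crossOp_dF (h : St N) (k m : Fin N) (r) :
    crossOp (dF N a) h (k :: m :: r) = ∑ i, matF N a k i * h (i :: m :: r) +
      (a ^ 2)⁻¹ ^ wt k * ∑ j, matF N a m j * h (k :: j :: r) := by
  simp only [crossOp, dF, Matrix.add_apply, kroneckerMap_apply, matK, diagonal_apply,
    one_apply, add_mul, sum_add_distrib]
  congr 1
  · refine sum_congr rfl fun b _ => ?_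
    simp only [mul_ite, mul_zero, ite_mul, zero_mul, sum_ite_eq, mem_univ, if_true, mul_one]
  · rw [sum_comm, mul_sum]
    simp only [ite_mul, zero_mul, sum_ite_eq, mem_univ, if_true, mul_assoc]

/-- eigenvalues of the Casimir -/
def om (a : ℂ) (n : ℕ) : ℂ := (a ^ 2) ^ (2 * n + 1) + (a ^ 2)⁻¹ ^ (2 * n + 1)

/-- off-diagonal entries of the Casimir -/
def xo (a : ℂ) (n : ℕ) : ℂ :=
  (a ^ 2 - (a ^ 2)⁻¹) ^ 2 * qInt a (n + 1) ^ 2 * (a ^ 2)⁻¹ ^ (2 * n + 3)

lemma star_om (hr : Root N a) (n : ℕ) : star (om a n) = om a n := by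
  have hs := hr.star_s
  unfold om
  generalize a ^ 2 = s at *
  rw [star_add, star_pow, star_pow, star_inv₀, hs, inv_inv, add_comm]

lemma star_xo (hr : Root N a) (n : ℕ) : star (xo a n) =
    (a ^ 2 - (a ^ 2)⁻¹) ^ 2 * qInt a (n + 1) ^ 2 * (a ^ 2) ^ (2 * n + 3) := by
  have hs := hr.star_s
  have hq := hr.star_qInt (n + 1)
  unfold xo
  generalize a ^ 2 = s at *
  rw [star_mul', star_mul', star_pow, star_pow, star_pow, star_sub, star_inv₀, hs, inv_inv, hq]
  ring

lemma xo_ne (hr : Root N a) {n : ℕ} (h : n + 1 < N) : xo a n ≠ 0 :=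
  mul_ne_zero (mul_ne_zero (pow_ne_zero _ hr.d_ne) (pow_ne_zero _ (hr.qInt_ne (by omega) h)))
    (pow_ne_zero _ (inv_ne_zero hr.s_ne))

lemma Root.pow_flip (hr : Root N a) {i j : ℕ} (h : i + j = 2 * N) :
    (a ^ 2)⁻¹ ^ i = (a ^ 2) ^ j := by
  have h1 : (a ^ 2) ^ i * (a ^ 2) ^ j = 1 := by
    rw [← pow_add, h, mul_comm 2 N, pow_mul, hr.pow]; norm_num
  rw [inv_pow]
  exact (eq_inv_of_mul_eq_one_right h1).symm

lemma Root.wt_inv (hr : Root N a) (j : Fin N) :
    (a ^ 2)⁻¹ ^ wt j = -(a ^ 2) ^ (2 * (j : ℕ) + 1) := by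
  rw [_root_.inv_zpow, hr.wt_eq, inv_pow, inv_neg, inv_inv]

/-- Casimir on the first two factors -/
def opX (a : ℂ) (g : St N) : St N := atPos 0 (crossOp (cas N a)) g

/-- Casimir on the second and third factor -/
def opY (a : ℂ) (g : St N) : St N := atPos 1 (crossOp (cas N a)) g

lemma good_cas (hr : Root N a) : Good a (crossOp (cas N a)) :=
  good_cross (cas_dE hr) fun _ hz => cas_dK hz

lemma HW.opX (hr : Root N a) {g : St N} (hg : HW a g) : HW a (opX a g) :=
  ((good_cas hr).atPos hr.ne 0).hw hg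

lemma HW.opY (hr : Root N a) {g : St N} (hg : HW a g) : HW a (opY a g) :=
  ((good_cas hr).atPos hr.ne 1).hw hg

lemma cas_diag (hr : Root N a) (k m : Fin N) (hm : (m : ℕ) = 0) :
    a ^ 2 * ((a ^ 2) ^ wt k * (a ^ 2) ^ wt m) +
      (a ^ 2)⁻¹ * ((a ^ 2)⁻¹ ^ wt k * (a ^ 2)⁻¹ ^ wt m) = om a k := by
  rw [hr.wt_eq, hr.wt_eq, hr.wt_inv, hr.wt_inv, hm, om]
  have := hr.s_ne
  generalize a ^ 2 = s at *
  generalize s ^ (2 * (k : ℕ) + 1) = x
  generalize s⁻¹ ^ (2 * (k : ℕ) + 1) = y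
  simp only [mul_zero, zero_add, pow_one]
  field_simp
  ring

lemma om_flip (hr : Root N a) {n : ℕ} (h : n < N) : om a (N - 1 - n) = om a n := by
  unfold om
  rw [hr.pow_flip (i := 2 * (N - 1 - n) + 1) (j := 2 * n + 1) (by omega),
    ← hr.pow_flip (i := 2 * n + 1) (j := 2 * (N - 1 - n) + 1) (by omega), add_comm]

lemma opX_apply (hr : Root N a) {g : St N} (hg : HW a g) (n z k : Fin N) (hz : (z : ℕ) = 0) :
    opX a g [n, z, k] = om a n * g [n, z, k] - (a ^ 2 - (a ^ 2)⁻¹) ^ 2 * (a ^ 2)⁻¹ ^ wt k *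
      ∑ i, matF N a n i * ∑ b, matE N a k b * g [i, z, b] := by
  have e : ∀ i j : Fin N, crossOp (dE N a) g [i, j, k] =
      -((a ^ 2)⁻¹ ^ wt k * ∑ b, matE N a k b * g [i, j, b]) := by
    intro i j
    have := hg.e [i, j, k]
    rw [Et_two] at this
    simp only [Et, Kp_cons, Kp_nil, mul_one, add_zero] at this
    have h1 : (a ^ 2) ^ wt k ≠ 0 := zpow_ne_zero _ hr.s_ne
    rw [_root_.inv_zpow]
    field_simp
    linear_combination this
  simp only [opX, atPos, cas, crossOp_add, crossOp_smul, crossOp_mul, crossOp_dK, crossOp_dF, e]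
  rw [F_sum z, dif_neg (by omega), ← cas_diag hr n z hz]
  simp only [mul_neg, sum_neg_distrib, mul_left_comm (matF N a n _), ← mul_sum]
  ring

lemma opY_apply (hr : Root N a) {g : St N} (hg : HW a g) (n z k : Fin N) (hz : (z : ℕ) = 0) :
    opY a g [n, z, k] = om a k * g [n, z, k] - (a ^ 2 - (a ^ 2)⁻¹) ^ 2 *
      ∑ j, matF N a k j * ((a ^ 2) ^ wt j * ∑ b, matE N a n b * g [b, z, j]) := by
  have e : ∀ j : Fin N, crossOp (dE N a) (fun r => g (n :: r)) [z, j] =
      -((a ^ 2) ^ wt z * ((a ^ 2) ^ wt j * ∑ b, matE N a n b * g [b, z, j])) := by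
    intro j
    have := hg.e [n, z, j]
    rw [Et, Et_two] at this
    simp only [Et, Kp_cons, Kp_nil, mul_one, add_zero] at this
    linear_combination this
  simp only [opY, atPos, shift, cas, crossOp_add, crossOp_smul, crossOp_mul, crossOp_dK,
    crossOp_dF, e]
  rw [F_sum z, dif_neg (by omega), ← cas_diag hr k z hz]
  have h1 : (a ^ 2)⁻¹ ^ wt z * (a ^ 2) ^ wt z = 1 := by
    rw [← mul_zpow, inv_mul_cancel₀ hr.s_ne, _root_.one_zpow]
  simp only [mul_neg, sum_neg_distrib, mul_left_comm (matF N a k _) ((a ^ 2) ^ wt z), ← mul_sum]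
  linear_combination (-(a ^ 2 - (a ^ 2)⁻¹) ^ 2 *
    ∑ j, matF N a k j * ((a ^ 2) ^ wt j * ∑ b, matE N a n b * g [b, z, j])) * h1

lemma co_X_zero (hr : Root N a) {g : St N} (hg : HW a g) : co (opX a g) 0 = om a 0 * co g 0 := by
  have hN := hr.two
  rw [co, co, dif_pos (by omega), dif_pos (by omega), opX_apply hr hg _ _ _ rfl, F_sum,
    dif_neg (by simp)]
  simp

lemma co_X_succ (hr : Root N a) {g : St N} (hg : HW a g) (n : ℕ) :
    co (opX a g) (n + 1) = om a (n + 1) * co g (n + 1) + xo a n * co g n := by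
  by_cases h : n + 1 < N
  · rw [co, co, co, dif_pos h, dif_pos h, dif_pos (by omega), opX_apply hr hg _ _ _ rfl, F_sum,
      dif_pos (by simp), E_sum, dif_pos (by simp; omega), hr.wt_inv]
    simp only [Nat.add_sub_cancel]
    have e1 : N - 1 - (n + 1) + 1 = N - 1 - n := by omega
    have e2 : N - 1 - n = N - (n + 1) := by omega
    have e3 : qInt a (N - 1 - (n + 1) + 1) = qInt a (n + 1) := by
      rw [e1, e2, hr.qInt_sub (by omega)]
    rw [e3, hr.qInt_sub (by omega), ← hr.pow_flip (i := 2 * n + 3) (by omega), xo]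
    simp only [e1]
    ring
  · rw [co_ge _ (by omega), co_ge _ (by omega : N ≤ n + 1)]
    by_cases h2 : n + 1 = N
    · simp [xo, h2, hr.qInt_N]
    · simp [co_ge _ (by omega : N ≤ n)]

lemma co_Y (hr : Root N a) {g : St N} (hg : HW a g) (n : ℕ) :
    co (opY a g) n = om a n * co g n + star (xo a n) * co g (n + 1) := by
  by_cases h : n + 1 < N
  · rw [co, co, co, dif_pos h, dif_pos (by omega), dif_pos (by omega), opY_apply hr hg _ _ _ rfl,
      F_sum, dif_pos (by simp; omega), E_sum, dif_pos (by simpa using h), hr.wt_eq, star_xo hr]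
    simp only
    have e1 : N - (N - 1 - n) = n + 1 := by omega
    have e2 : N - 1 - n - 1 = N - 1 - (n + 1) := by omega
    rw [om_flip hr (by omega), e1, hr.pow_flip (j := 2 * n + 3) (by omega)]
    simp only [e2]
    ring
  · rw [co_ge _ (by omega : N ≤ n + 1)]
    by_cases h2 : n < N
    · rw [co, co, dif_pos h2, dif_pos h2, opY_apply hr hg _ _ _ rfl, F_sum,
        dif_neg (by simp; omega)]
      simp only
      rw [om_flip hr h2]
      simp
    · simp [co_ge _ (by omega : N ≤ n)]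

end

end Pool.Agent.H843Z.CJ
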