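import Pool.Agent.H843Z.CJ.Pos

open scoped Kronecker Matrix
open Matrix Finset

namespace Pool.Agent.H843Z.CJ

noncomputable section

variable {N : ℕ} {a : ℂ}

lemma HW.comb {ι : Type} (s : Finset ι) (c : ι → ℂ) {g : ι → St N} (hg : ∀ x ∈ s, HW a (g x)) :
    HW a (fun l => ∑ x ∈ s, c x * g x l) where
  e := by
    intro l
    rw [Et_sum]
    exact sum_eq_zero fun x hx => by rw [(hg x hx).e, mul_zero]
  k := by
    intro z hz l
    simp only [mul_sum]
    refine sum_congr rfl fun x hx => ?_
    linear_combination c x * (hg x hx).k z hz l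

lemma HW.comb2 (c d : ℂ) {g h : St N} (hg : HW a g) (hh : HW a h) :
    HW a (fun l => c * g l + d * h l) := by
  have := HW.comb (a := a) (univ : Finset Bool) (fun b => if b then c else d)
    (g := fun b => if b then g else h) (by intro x _; cases x <;> simpa)
  simpa using this

lemma co_comb {ι : Type} (s : Finset ι) (c : ι → ℂ) (g : ι → St N) (n : ℕ) :
    co (fun l => ∑ x ∈ s, c x * g x l) n = ∑ x ∈ s, c x * co (g x) n := by
  unfold co
  split_ifs <;> simp

lemma co_comb2 (c d : ℂ) (g h : St N) (n : ℕ) :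
    co (fun l => c * g l + d * h l) n = c * co g n + d * co h n := by
  unfold co
  split_ifs <;> simp

/-- defect between the pairing and the standard inner product of the coordinates -/
def dft (g h : St N) : ℂ := pairing 3 g h - ∑ n ∈ range N, co g n * star (co h n)

lemma dft_comb {ι : Type} (s : Finset ι) (c : ι → ℂ) (g : ι → St N) (h : St N) :
    dft (fun l => ∑ x ∈ s, c x * g x l) h = ∑ x ∈ s, c x * dft (g x) h := by
  simp only [dft, co_comb, mul_sub, sum_sub_distrib, pairing, sum_mul, sumL_sum, mul_sum]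
  congr 1
  · refine sum_congr rfl fun x _ => ?_
    simp only [sumL, mul_sum, mul_assoc]
  · rw [sum_comm]
    simp only [mul_assoc]

lemma dft_comb2 (c d : ℂ) (g g' h : St N) :
    dft (fun l => c * g l + d * g' l) h = c * dft g h + d * dft g' h := by
  have := dft_comb (univ : Finset Bool) (fun b => if b then c else d)
    (fun b => if b then g else g') h
  simpa using this

lemma dft_star (g h : St N) : dft g h = star (dft h g) := by
  simp only [dft, star_sub, star_sum, star_mul', star_star, ← pairing_star, mul_comm]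

lemma dft_ker (hr : Root N a) {g : St N} (hg : HW a g) (h0 : ∀ n, co g n = 0) (h : St N) :
    dft g h = 0 := by
  simp [dft, pairing_three, hg.ker hr h0, h0]

lemma dft_congr (hr : Root N a) {g g' : St N} (hg : HW a g) (hg' : HW a g')
    (h0 : ∀ n, co g n = co g' n) (h : St N) : dft g h = dft g' h := by
  have := dft_ker hr (hg.comb2 1 (-1) hg') (fun n => by rw [co_comb2, h0]; ring) h
  rw [dft_comb2] at this
  linear_combination this

lemma pairing_XY (hr : Root N a) (g h : St N) : pairing 3 (opX a g) h = pairing 3 g (opY a h) := by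
  have := adj_cross (cas N a) 0 1 g h
  rwa [sh_cas hr] at this

lemma dft_XY (hr : Root N a) {g h : St N} (hg : HW a g) (hh : HW a h) :
    dft (opX a g) h = dft g (opY a h) := by
  simp only [dft, pairing_XY hr]
  congr 1
  obtain ⟨M, rfl⟩ : ∃ M, N = M + 1 := ⟨N - 1, by have := hr.two; omega⟩
  simp only [co_Y hr hh, star_add, star_mul', star_om hr, star_star, mul_add, sum_add_distrib]
  rw [sum_range_succ', sum_range_succ' (fun n => co g n * (om a n * star (co h n))),
    sum_range_succ, co_ge h (le_refl _)]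
  simp only [co_X_succ hr hg, co_X_zero hr hg, add_mul, sum_add_distrib, star_zero, mul_zero,
    add_zero]
  have e1 : ∑ x ∈ range M, om a (x + 1) * co g (x + 1) * star (co h (x + 1)) =
      ∑ x ∈ range M, co g (x + 1) * (om a (x + 1) * star (co h (x + 1))) :=
    sum_congr rfl fun _ _ => by ring
  have e2 : ∑ x ∈ range M, xo a x * co g x * star (co h (x + 1)) =
      ∑ x ∈ range M, co g x * (xo a x * star (co h (x + 1))) :=
    sum_congr rfl fun _ _ => by ring
  rw [e1, e2]
  ring

/-- the vector of the diagram with one cup to the right of the strand -/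
def uY (a : ℂ) (z : Fin N) : St N := (Slice.cup 1).act N a (vac z)

lemma uY_apply (z i j k : Fin N) : uY a z [i, j, k] = if i = z then cupVec N a j k else 0 := by
  simp [uY, Slice.act, atPos, shift, cupOp, vac]

lemma uY_hw (hr : Root N a) (z : Fin N) (hz : (z : ℕ) = 0) : HW a (uY a z) :=
  (good_act hr _).hw (vac_hw z hz)

lemma co_uY (hr : Root N a) (z : Fin N) (hz : (z : ℕ) = 0) (n : ℕ) :
    co (uY a z) n = if n = 0 then 1 else 0 := by
  have hN := hr.two
  unfold co
  by_cases h : n < N
  · rw [dif_pos h, uY_apply]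
    by_cases h0 : n = 0
    · subst h0
      rw [if_pos (Fin.ext hz.symm), if_pos rfl, cupVec, if_pos (by simp), hr.cupCoef_eq (by simp; omega)]
      simp
    · rw [if_neg (fun h1 => h0 (by rw [← hz, ← h1])), if_neg h0]
  · rw [dif_neg h, if_neg (by omega)]

lemma dft_uY (hr : Root N a) (z : Fin N) (hz : (z : ℕ) = 0) : dft (uY a z) (uY a z) = 0 := by
  have hN := hr.two
  have e2 : ∑ n ∈ range N, co (uY a z) n * star (co (uY a z) n) = 1 := by
    rw [sum_eq_single 0]
    · simp [co_uY hr z hz]
    · intro b _ hb; simp [co_uY hr z hz, hb]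
    · intro h; exact absurd (mem_range.2 (by omega)) h
  rw [dft, e2, pairing_three, sum_eq_single z, sum_eq_single ⟨N - 1, by omega⟩, sum_eq_single z]
  · simp only [uY_apply, if_true]
    rw [star_cup hr, cupVec, capVec, if_pos (by simp [hz]), if_pos (by simp [hz]),
      mul_inv_cancel₀, sub_self]
    rw [hr.cupCoef_eq (by simp; omega)]
    exact pow_ne_zero _ (inv_ne_zero hr.s_ne)
  · intro b _ hb; simp [uY_apply, hb]
  · simp
  · intro b _ hb
    refine sum_eq_zero fun k _ => ?_
    rw [uY_apply z k]
    split_ifs with h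
    · rw [cupVec, if_neg, star_zero, mul_zero]
      intro h0
      exact hb (Fin.ext (by simp; omega))
    · simp
  · simp
  · intro b _ hb; simp [uY_apply, hb]
  · simp

/-- the split basis -/
def dv (a : ℂ) (z : Fin N) : ℕ → St N
  | 0 => uY a z
  | n + 1 => fun l => (xo a n)⁻¹ * opX a (dv a z n) l + (-((xo a n)⁻¹ * om a n)) * dv a z n l

lemma dv_hw (hr : Root N a) (z : Fin N) (hz : (z : ℕ) = 0) (n : ℕ) : HW a (dv a z n) := by
  induction n with
  | zero => exact uY_hw hr z hz
  | succ n ih => exact (ih.opX hr).comb2 _ _ ih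

lemma co_dv (hr : Root N a) (z : Fin N) (hz : (z : ℕ) = 0) {n : ℕ} (hn : n < N) (m : ℕ) :
    co (dv a z n) m = if m = n then 1 else 0 := by
  induction n generalizing m with
  | zero => exact co_uY hr z hz m
  | succ n ih =>
    have hx := xo_ne hr hn
    rw [dv, co_comb2]
    cases m with
    | zero =>
      rw [co_X_zero hr (dv_hw hr z hz n), ih (by omega), if_neg (by omega : ¬ 0 = n + 1)]
      split_ifs with h1
      · subst h1; ring
      · ring
    | succ m =>
      rw [co_X_succ hr (dv_hw hr z hz n), ih (by omega), ih (by omega)]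
      split_ifs with h1 h2 h3 h3 h2 h3 h3 <;> try omega
      · subst h1; ring
      · subst h2; field_simp; ring
      · ring

lemma dft_dv_succ (hr : Root N a) (z : Fin N) (hz : (z : ℕ) = 0) (n : ℕ) {h : St N} (hh : HW a h) :
    dft (dv a z (n + 1)) h = (xo a n)⁻¹ * dft (dv a z n) (opY a h) +
      (-((xo a n)⁻¹ * om a n)) * dft (dv a z n) h := by
  rw [dv, dft_comb2, dft_XY hr (dv_hw hr z hz n) hh]

lemma dft_expand (hr : Root N a) (z : Fin N) (hz : (z : ℕ) = 0) {g : St N} (hg : HW a g)
    (h : St N) : dft g h = ∑ n ∈ range N, co g n * dft (dv a z n) h := by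
  rw [← dft_comb]
  refine dft_congr hr hg (HW.comb _ _ fun n _ => dv_hw hr z hz n) (fun m => ?_) h
  rw [co_comb]
  by_cases hm : m < N
  · rw [sum_eq_single m, co_dv hr z hz hm, if_pos rfl, mul_one]
    · intro b hb hbm
      rw [co_dv hr z hz (mem_range.1 hb), if_neg (Ne.symm hbm), mul_zero]
    · intro h; exact absurd (mem_range.2 hm) h
  · rw [co_ge _ (by omega)]
    exact (sum_eq_zero fun b _ => by rw [co_ge (n := m) _ (by omega), mul_zero]).symm

theorem dft_eq_zero (hr : Root N a) {g h : St N} (hg : HW a g) (hh : HW a h) : dft g h = 0 := by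
  have hN := hr.two
  let z : Fin N := ⟨0, by omega⟩
  have hz : (z : ℕ) = 0 := rfl
  have hu := uY_hw hr z hz
  have A : ∀ n, dft (dv a z n) (uY a z) = 0 := by
    intro n
    induction n with
    | zero => exact dft_uY hr z hz
    | succ n ih =>
      rw [dft_dv_succ hr z hz n hu, ih, dft_star,
        dft_congr hr (hu.opY hr) (hu.comb2 (om a 0) 0 hu), dft_comb2, dft_star (uY a z), ih]
      · simp
      · intro m
        rw [co_Y hr hu, co_comb2, co_uY hr z hz, co_uY hr z hz]
        split_ifs with h1 h2 h2 <;> simp_all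
  have B : ∀ h : St N, HW a h → dft (uY a z) h = 0 := by
    intro h hh
    rw [dft_star, dft_expand hr z hz hh]
    simp [A]
  have C : ∀ n, ∀ h : St N, HW a h → dft (dv a z n) h = 0 := by
    intro n
    induction n with
    | zero => exact B
    | succ n ih =>
      intro h hh
      rw [dft_dv_succ hr z hz n hh, ih _ hh, ih _ (hh.opY hr)]
      simp
  rw [dft_expand hr z hz hg]
  simp [C _ _ hh]

/-- Reflection positivity: on highest weight vectors the pairing is the standard inner product of
the coordinates. -/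
theorem pairing_eq (hr : Root N a) {g h : St N} (hg : HW a g) (hh : HW a h) :
    pairing 3 g h = ∑ n ∈ range N, co g n * star (co h n) :=
  sub_eq_zero.1 (dft_eq_zero hr hg hh)

lemma pairing_self (hr : Root N a) {g : St N} (hg : HW a g) :
    pairing 3 g g = ((∑ n ∈ range N, ‖co g n‖ ^ 2 : ℝ) : ℂ) := by
  rw [pairing_eq hr hg hg]
  push_cast
  exact sum_congr rfl fun n _ => by rw [Complex.star_def, Complex.mul_conj']

lemma norm_pairing_self (hr : Root N a) {g : St N} (hg : HW a g) :
    ‖pairing 3 g g‖ = ∑ n ∈ range N, ‖co g n‖ ^ 2 := by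
  rw [pairing_self hr hg, Complex.norm_real, Real.norm_of_nonneg (by positivity)]

theorem pairing_cs (hr : Root N a) {g h : St N} (hg : HW a g) (hh : HW a h) :
    ‖pairing 3 g h‖ ^ 2 ≤ ‖pairing 3 g g‖ * ‖pairing 3 h h‖ := by
  rw [norm_pairing_self hr hg, norm_pairing_self hr hh, pairing_eq hr hg hh]
  refine le_trans ?_ (sum_mul_sq_le_sq_mul_sq (range N) (fun n => ‖co g n‖) (fun n => ‖co h n‖))
  refine pow_le_pow_left₀ (norm_nonneg _) ((norm_sum_le _ _).trans (le_of_eq ?_)) 2
  simp

lemma root_of_prim {N : ℕ} {a : ℂ} (hN : 2 ≤ N) (ha : IsPrimitiveRoot a (4 * N)) : Root N a := by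
  have h0 : a ≠ 0 := ha.ne_zero (by omega)
  have hs : IsPrimitiveRoot (a ^ 2) (2 * N) := ha.pow (by omega) (by ring)
  refine ⟨hN, h0, ?_, ?_, ?_⟩
  · have := ha.norm'_eq_one (by omega)
    rw [Complex.star_def, Complex.inv_def, Complex.normSq_eq_norm_sq, this]
    simp
  · exact (hs.pow (by omega) (mul_comm 2 N)).eq_neg_one_of_two_right
  · intro n h1 h2 h3
    have h4 : (a ^ 2) ^ n ≠ 0 := pow_ne_zero _ (pow_ne_zero _ h0)
    have h5 : (a ^ 2) ^ (2 * n) = 1 := by
      rw [inv_pow, sub_eq_zero] at h3
      rw [two_mul, pow_add]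
      nth_rewrite 1 [h3]
      exact inv_mul_cancel₀ h4
    have := Nat.le_of_dvd (by omega) (hs.dvd_of_pow_eq_one _ h5)
    omega

end

end Pool.Agent.H843Z.CJ
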