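import Pool.Agent.H843Z.CJ.Defs

/-! Well-formed sliced diagrams and the point reflection of a diagram. -/

namespace Pool.Agent.H843Z.CJ

/-- the slice can be placed on top of `m` strands -/
def Slice.Fits : Slice → ℕ → Prop
  | .cup p, m => p ≤ m
  | .cap p, m => p + 2 ≤ m
  | .pos p, m => p + 2 ≤ m
  | .neg p, m => p + 2 ≤ m

/-- number of strands above the slice, when there are `m` below it -/
def Slice.out : Slice → ℕ → ℕ
  | .cup _, m => m + 2
  | .cap _, m => m - 2
  | .pos _, m => m
  | .neg _, m => m

/-- `w` is a tangle diagram with `m` endpoints at the bottom and `n` at the top -/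
def IsTangle : ℕ → List Slice → ℕ → Prop
  | m, [], n => m = n
  | m, s :: w, n => s.Fits m ∧ IsTangle (s.out m) w n

/-- image of a slice placed on `m` strands under the point reflection `v ↦ -v` of `ℝ³`
(half-turn of the diagram in its plane, with all crossings switched) -/
def Slice.refl : Slice → ℕ → Slice
  | .cup p, m => .cap (m - p)
  | .cap p, m => .cup (m - 2 - p)
  | .pos p, m => .neg (m - 2 - p)
  | .neg p, m => .pos (m - 2 - p)

/-- image under the point reflection `v ↦ -v` of a diagram with `m` endpoints at the bottom -/
def reflect : ℕ → List Slice → List Slice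
  | _, [] => []
  | m, s :: w => reflect (s.out m) w ++ [s.refl m]

end Pool.Agent.H843Z.CJ
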