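import Pool.Agent.H843Z.CJ.Alg3
import Pool.Agent.H843Z.CJ.TDefs

open scoped Kronecker Matrix
open Matrix Finset

namespace Pool.Agent.H843Z.CJ

noncomputable section

variable {N : ℕ} {a : ℂ}

/-- eigenvalue of `z^H` on a basis vector of a tensor power -/
def Kp (z : ℂ) (l : List (Fin N)) : ℂ := (l.map fun i => z ^ wt i).prod

@[simp] lemma Kp_nil (z : ℂ) : Kp z ([] : List (Fin N)) = 1 := rfl
@[simp] lemma Kp_cons (z : ℂ) (k : Fin N) (r : List (Fin N)) :
    Kp z (k :: r) = z ^ wt k * Kp z r := by simp [Kp]

/-- action of `E` on tensor powers -/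
def Et (a : ℂ) : List (Fin N) → St N → ℂ
  | [], _ => 0
  | k :: r, h => (∑ b, matE N a k b * h (b :: r)) * Kp (a ^ 2) r + Et a r (fun r' => h (k :: r'))

lemma Et_sum {ι : Type} (s : Finset ι) (c : ι → ℂ) (l : List (Fin N)) (h : ι → St N) :
    Et a l (fun r => ∑ x ∈ s, c x * h x r) = ∑ x ∈ s, c x * Et a l (h x) := by
  induction l generalizing h with
  | nil => simp [Et]
  | cons k r ih =>
    simp only [Et]
    rw [ih (fun x r' => h x (k :: r'))]
    simp only [mul_add, sum_add_distrib, mul_sum, sum_mul]
    congr 1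
    rw [sum_comm]
    refine sum_congr rfl fun x _ => sum_congr rfl fun b _ => ?_
    ring

lemma Et_mul (c : ℂ) (l : List (Fin N)) (h : St N) :
    Et a l (fun r => c * h r) = c * Et a l h := by
  have := Et_sum (a := a) (univ : Finset Unit) (fun _ => c) l (fun _ => h)
  simpa using this

lemma Et_zero (l : List (Fin N)) : Et a l (fun _ => (0 : ℂ)) = 0 := by
  have := Et_mul (a := a) 0 l (fun _ => 0)
  simpa using this

lemma Et_add (l : List (Fin N)) (h g : St N) :
    Et a l (fun r => h r + g r) = Et a l h + Et a l g := by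
  have := Et_sum (a := a) (univ : Finset Bool) (fun _ => 1) l (fun b => if b then h else g)
  simpa using this

lemma Et_two (k m : Fin N) (r : List (Fin N)) (h : St N) :
    Et a (k :: m :: r) h =
      crossOp (dE N a) h (k :: m :: r) * Kp (a ^ 2) r + Et a r (fun r' => h (k :: m :: r')) := by
  simp only [Et, crossOp, dE, Matrix.add_apply, kroneckerMap_apply, matK, diagonal_apply,
    one_apply, add_mul, sum_add_distrib, Kp_cons, ← add_assoc]
  congr 2
  · simp only [sum_mul]
    refine sum_congr rfl fun b _ => ?_
    simp only [mul_ite, mul_zero, ite_mul, zero_mul, sum_ite_eq, mem_univ, if_true]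
    ring
  · rw [sum_comm]
    simp only [ite_mul, zero_mul, one_mul, sum_ite_eq, mem_univ, if_true]

lemma crossOp_mul (M M' : Matrix (Fin N × Fin N) (Fin N × Fin N) ℂ) (h : St N) :
    crossOp (M * M') h = crossOp M (crossOp M' h) := by
  funext l
  match l with
  | [] => rfl
  | [_] => rfl
  | k :: m :: r =>
    simp only [crossOp, mul_apply, Fintype.sum_prod_type, sum_mul, mul_sum]
    calc ∑ i, ∑ j, ∑ x, ∑ y, M (k, m) (x, y) * M' (x, y) (i, j) * h (i :: j :: r)
        = ∑ i, ∑ x, ∑ j, ∑ y, M (k, m) (x, y) * M' (x, y) (i, j) * h (i :: j :: r) :=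
          sum_congr rfl fun _ _ => sum_comm
      _ = ∑ x, ∑ i, ∑ y, ∑ j, M (k, m) (x, y) * M' (x, y) (i, j) * h (i :: j :: r) := by
          rw [sum_comm]
          exact sum_congr rfl fun _ _ => sum_congr rfl fun _ _ => sum_comm
      _ = ∑ x, ∑ y, ∑ i, ∑ j, M (k, m) (x, y) * (M' (x, y) (i, j) * h (i :: j :: r)) := by
          refine sum_congr rfl fun _ _ => ?_
          rw [sum_comm]
          simp only [mul_assoc]

/-- `T` is linear and commutes with the Borel part of the quantum group -/
structure Good (a : ℂ) (T : St N → St N) : Prop where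
  lin : ∀ {ι : Type} (s : Finset ι) (c : ι → ℂ) (h : ι → St N) (l : List (Fin N)),
    T (fun r => ∑ x ∈ s, c x * h x r) l = ∑ x ∈ s, c x * T (h x) l
  comK : ∀ z : ℂ, z ≠ 0 → ∀ (h : St N) (l : List (Fin N)),
    T (fun r => Kp z r * h r) l = Kp z l * T h l
  comE : ∀ (h : St N) (l : List (Fin N)), Et a l (T h) = T (fun r => Et a r h) l

lemma Good.mul {T : St N → St N} (hT : Good a T) (c : ℂ) (h : St N) (l : List (Fin N)) :
    T (fun r => c * h r) l = c * T h l := by
  have := hT.lin (univ : Finset Unit) (fun _ => c) (fun _ => h) l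
  simpa using this

lemma Good.zero {T : St N → St N} (hT : Good a T) (l : List (Fin N)) :
    T (fun _ => 0) l = 0 := by
  have := hT.mul 0 (fun _ => 0) l
  simpa using this

lemma Good.add {T : St N → St N} (hT : Good a T) (h g : St N) (l : List (Fin N)) :
    T (fun r => h r + g r) l = T h l + T g l := by
  have := hT.lin (univ : Finset Bool) (fun _ => 1) (fun b => if b then h else g) l
  simpa using this

lemma Good.shift (ha : a ≠ 0) {T : St N → St N} (hT : Good a T) : Good a (shift T) where
  lin := by
    intro ι s c h l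
    cases l with
    | nil => simp [CJ.shift]
    | cons k r => exact hT.lin s c (fun x r' => h x (k :: r')) r
  comK := by
    intro z hz h l
    cases l with
    | nil => simp [CJ.shift]
    | cons k r =>
      simp only [CJ.shift, Kp_cons, mul_assoc]
      rw [hT.mul, hT.comK z hz]
  comE := by
    intro h l
    cases l with
    | nil => simp [CJ.shift, Et]
    | cons k r =>
      simp only [CJ.shift, Et]
      rw [hT.add, ← hT.comE]
      congr 1
      simp only [mul_comm _ (Kp (a ^ 2) _)]
      rw [hT.comK _ (pow_ne_zero _ ha), hT.lin univ (fun b => matE N a k b) (fun b r' => h (b :: r'))]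

lemma Good.atPos (ha : a ≠ 0) {T : St N → St N} (hT : Good a T) (p : ℕ) : Good a (atPos p T) := by
  induction p with
  | zero => exact hT
  | succ p ih => exact ih.shift ha

lemma good_cross {M : Matrix (Fin N × Fin N) (Fin N × Fin N) ℂ}
    (hE : M * dE N a = dE N a * M) (hK : ∀ z : ℂ, z ≠ 0 → M * dK N z = dK N z * M) :
    Good a (crossOp M) where
  lin := by
    intro ι s c h l
    match l with
    | [] => simp [crossOp]
    | [_] => simp [crossOp]
    | k :: m :: r =>
      simp only [crossOp, mul_sum]
      rw [sum_comm (s := s)]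
      refine sum_congr rfl fun i _ => ?_
      rw [sum_comm (s := s)]
      refine sum_congr rfl fun j _ => sum_congr rfl fun x _ => ?_
      ring
  comK := by
    intro z hz h l
    match l with
    | [] => simp [crossOp]
    | [_] => simp [crossOp]
    | k :: m :: r =>
      simp only [crossOp, mul_sum, Kp_cons]
      refine sum_congr rfl fun i _ => sum_congr rfl fun j _ => ?_
      have := congrFun (congrFun (hK z hz) (k, m)) (i, j)
      simp only [dK, matK, diagonal_kronecker_diagonal, mul_diagonal, diagonal_mul] at this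
      linear_combination (Kp z r * h (i :: j :: r)) * this
  comE := by
    intro h l
    match l with
    | [] => simp [crossOp, Et]
    | [_] => simp [crossOp, Et]
    | k :: m :: r =>
      rw [Et_two, ← crossOp_mul, ← hE, crossOp_mul]
      simp only [crossOp, Et_two, mul_add, sum_add_distrib]
      congr 1
      · simp only [sum_mul, mul_assoc]
      · have := Et_sum (a := a) (univ : Finset (Fin N × Fin N)) (fun p => M (k, m) p) r
          (fun p r' => h (p.1 :: p.2 :: r'))
        simpa [Fintype.sum_prod_type] using this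

lemma wt_add {z : ℂ} (hz : z ≠ 0) {i j : Fin N} (h : (i : ℕ) + j = N - 1) :
    z ^ wt i * z ^ wt j = 1 := by
  rw [← zpow_add₀ hz]
  have : wt i + wt j = 0 := by
    unfold wt
    have := i.2
    omega
  rw [this, zpow_zero]

lemma Root.wt_eq (h : Root N a) (j : Fin N) : (a ^ 2) ^ wt j = -(a ^ 2)⁻¹ ^ (2 * (j : ℕ) + 1) := by
  have : wt j = (N : ℕ) - ((2 * (j : ℕ) + 1 : ℕ) : ℤ) := by unfold wt; push_cast; ring
  rw [this, zpow_sub₀ h.s_ne, zpow_natCast, zpow_natCast, h.pow, inv_pow]
  field_simp

lemma dE_cup (h : Root N a) (k m : Fin N) :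
    ∑ i, ∑ j, dE N a (k, m) (i, j) * cupVec N a i j = 0 := by
  have e : ∑ i, ∑ j, dE N a (k, m) (i, j) * cupVec N a i j =
      (matE N a * Matrix.of (cupVec N a)) k m * (a ^ 2) ^ wt m +
        (matE N a * (Matrix.of (cupVec N a))ᵀ) m k := by
    simp only [dE, Matrix.add_apply, kroneckerMap_apply, matK, diagonal_apply,
      one_apply, add_mul, sum_add_distrib, mul_apply, of_apply, transpose_apply]
    congr 1
    · simp only [sum_mul]
      refine sum_congr rfl fun b _ => ?_
      simp only [mul_ite, mul_zero, ite_mul, zero_mul, sum_ite_eq, mem_univ, if_true]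
      ring
    · rw [sum_comm]
      simp only [ite_mul, zero_mul, one_mul, sum_ite_eq, mem_univ, if_true]
  rw [e, E_mul, E_mul]
  simp only [of_apply, transpose_apply, cupVec]
  have hk := k.2
  have hm := m.2
  by_cases hc : (k : ℕ) + m + 2 = N
  · rw [dif_pos (by omega), dif_pos (by omega), if_pos (by omega), if_pos (by omega),
      h.cupCoef_eq (by omega), h.cupCoef_eq (by omega), h.wt_eq]
    have e1 : qInt a (m + 1) = qInt a (k + 1) := by
      rw [← h.qInt_sub (m := k + 1) (by omega)]
      congr 1
      omega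
    have e2 : (a ^ 2)⁻¹ ^ ((k + 1 : ℕ) * (k + 1 + 2)) * (a ^ 2)⁻¹ ^ (2 * (m : ℕ) + 1) =
        (a ^ 2)⁻¹ ^ ((k : ℕ) * (k + 2)) * ((a ^ 2)⁻¹ ^ N) ^ 2 := by
      rw [← pow_add, ← pow_mul, ← pow_add]
      congr 1
      nlinarith [hc]
    rw [inv_pow _ N, h.pow] at e2
    rw [e1]
    linear_combination (-qInt a (k + 1)) * e2
  · split_ifs <;> first | omega | simp

lemma cap_dE (h : Root N a) (k m : Fin N) :
    ∑ i, ∑ j, capVec N a i j * dE N a (i, j) (k, m) = 0 := by
  have e : ∑ i, ∑ j, capVec N a i j * dE N a (i, j) (k, m) =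
      (matF N a * Matrix.of (capVec N a)) k m * (a ^ 2) ^ wt m +
        (matF N a * (Matrix.of (capVec N a))ᵀ) m k := by
    have hFE : ∀ i j, matF N a i j = matE N a j i := by
      intro i j
      rw [← E_conj h, conjTranspose_apply]
      unfold matE
      split_ifs
      · exact h.star_qInt _
      · simp
    simp only [dE, Matrix.add_apply, kroneckerMap_apply, matK, diagonal_apply,
      one_apply, mul_add, sum_add_distrib, mul_apply, of_apply, transpose_apply, hFE]
    congr 1
    · simp only [sum_mul]
      refine sum_congr rfl fun b _ => ?_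
      simp only [mul_ite, mul_zero, sum_ite_eq', mem_univ, if_true]
      ring
    · rw [sum_comm]
      simp only [ite_mul, mul_ite, zero_mul, one_mul, sum_ite_eq', mem_univ, if_true,
        mul_comm]
  rw [e, F_mul, F_mul]
  simp only [of_apply, transpose_apply, capVec]
  have hk := k.2
  have hm := m.2
  by_cases hc : (k : ℕ) + m = N
  · rw [dif_pos (by omega), dif_pos (by omega), if_pos (by omega), if_pos (by omega),
      h.cupCoef_eq (by omega), h.cupCoef_eq (by omega), h.wt_eq]
    have e1 : qInt a (N - m) = qInt a (N - k) := by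
      rw [h.qInt_sub (m := k) (by omega)]
      congr 1
      omega
    obtain ⟨j, hj⟩ : ∃ j : ℕ, (m : ℕ) = j + 1 := ⟨m - 1, by omega⟩
    rw [e1, hj]
    have e2 : (a ^ 2)⁻¹ ^ ((j + 1) * (j + 1 + 2)) =
        (a ^ 2)⁻¹ ^ ((j + 1 - 1) * (j + 1 - 1 + 2)) * (a ^ 2)⁻¹ ^ (2 * (j + 1) + 1) := by
      rw [← pow_add]
      congr 1
      simp only [Nat.add_sub_cancel]
      ring
    rw [e2]
    have h1 : (a ^ 2)⁻¹ ^ (2 * (j + 1) + 1) ≠ 0 := pow_ne_zero _ (inv_ne_zero h.s_ne)
    have h2 : (a ^ 2)⁻¹ ^ ((j + 1 - 1) * (j + 1 - 1 + 2)) ≠ 0 := pow_ne_zero _ (inv_ne_zero h.s_ne)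
    generalize (a ^ 2)⁻¹ ^ (2 * (j + 1) + 1) = x at *
    generalize (a ^ 2)⁻¹ ^ ((j + 1 - 1) * (j + 1 - 1 + 2)) = y at *
    field_simp
    ring
  · split_ifs <;> first | omega | simp

lemma good_cup (h : Root N a) : Good a (cupOp (N := N) a) where
  lin := by
    intro ι s c g l
    match l with
    | [] => simp [cupOp]
    | [_] => simp [cupOp]
    | k :: m :: r =>
      simp only [cupOp, mul_sum]
      refine sum_congr rfl fun x _ => ?_
      ring
  comK := by
    intro z hz g l
    match l with
    | [] => simp [cupOp]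
    | [_] => simp [cupOp]
    | k :: m :: r =>
      simp only [cupOp, Kp_cons, cupVec]
      split_ifs with h1
      · linear_combination (-(cupCoef N a k * Kp z r * g r)) * wt_add hz h1
      · simp
  comE := by
    intro g l
    match l with
    | [] => simp [cupOp, Et]
    | [_] => simp [cupOp, Et]
    | k :: m :: r =>
      rw [Et_two]
      simp only [crossOp, cupOp, Et_mul, ← mul_assoc, ← sum_mul]
      rw [dE_cup h]
      simp

lemma good_cap (h : Root N a) : Good a (capOp (N := N) a) where
  lin := by
    intro ι s c g l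
    simp only [capOp, mul_sum]
    rw [sum_comm (s := s)]
    refine sum_congr rfl fun i _ => ?_
    rw [sum_comm (s := s)]
    refine sum_congr rfl fun j _ => sum_congr rfl fun x _ => ?_
    ring
  comK := by
    intro z hz g l
    simp only [capOp, Kp_cons, mul_sum]
    refine sum_congr rfl fun i _ => sum_congr rfl fun j _ => ?_
    unfold capVec
    split_ifs with h1
    · linear_combination ((cupCoef N a j)⁻¹ * Kp z l * g (i :: j :: l)) * wt_add hz h1
    · simp
  comE := by
    intro g l
    have := Et_sum (a := a) (univ : Finset (Fin N × Fin N)) (fun p => capVec N a p.1 p.2) l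
      (fun p r' => g (p.1 :: p.2 :: r'))
    simp only [Fintype.sum_prod_type] at this
    unfold capOp
    rw [this]
    simp only [Et_two, mul_add, sum_add_distrib, crossOp]
    have e : ∑ i, ∑ j, capVec N a i j *
        ((∑ k, ∑ m, dE N a (i, j) (k, m) * g (k :: m :: l)) * Kp (a ^ 2) l) =
        ∑ k, ∑ m, (∑ i, ∑ j, capVec N a i j * dE N a (i, j) (k, m)) *
          (g (k :: m :: l) * Kp (a ^ 2) l) := by
      simp only [sum_mul, mul_sum]
      calc ∑ i, ∑ j, ∑ k, ∑ m, capVec N a i j * (dE N a (i, j) (k, m) * g (k :: m :: l) * Kp (a ^ 2) l)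
          = ∑ i, ∑ k, ∑ j, ∑ m, capVec N a i j *
              (dE N a (i, j) (k, m) * g (k :: m :: l) * Kp (a ^ 2) l) :=
            sum_congr rfl fun _ _ => sum_comm
        _ = ∑ k, ∑ i, ∑ m, ∑ j, capVec N a i j *
              (dE N a (i, j) (k, m) * g (k :: m :: l) * Kp (a ^ 2) l) := by
            rw [sum_comm]
            exact sum_congr rfl fun _ _ => sum_congr rfl fun _ _ => sum_comm
        _ = _ := by
            refine sum_congr rfl fun _ _ => ?_
            rw [sum_comm]
            simp only [mul_assoc]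
    rw [e]
    simp [cap_dE h]

lemma good_braid (h : Root N a) : Good a (crossOp (braid N a)) :=
  good_cross (braid_dE h) fun _ hz => braid_dK hz

lemma good_braid_inv (h : Root N a) : Good a (crossOp (braid N a)⁻¹) := by
  rw [braid_inv h]
  exact good_cross (comm_sh h (braid_dE h)) fun _ hz => comm_sh h (braid_dK hz)

lemma good_act (h : Root N a) (s : Slice) : Good a (s.act N a) := by
  cases s with
  | cup p => exact (good_cup h).atPos h.ne p
  | cap p => exact (good_cap h).atPos h.ne p
  | pos p => exact (good_braid h).atPos h.ne p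
  | neg p => exact (good_braid_inv h).atPos h.ne p

/-- highest weight vectors of weight `N - 1` -/
structure HW (a : ℂ) (g : St N) : Prop where
  e : ∀ l, Et a l g = 0
  k : ∀ z : ℂ, z ≠ 0 → ∀ l, Kp z l * g l = z ^ (N - 1) * g l

lemma Good.hw {T : St N → St N} (hT : Good a T) {g : St N} (hg : HW a g) : HW a (T g) where
  e := by
    intro l
    rw [hT.comE]
    simp only [hg.e]
    exact hT.zero l
  k := by
    intro z hz l
    rw [← hT.comK z hz]
    simp only [hg.k z hz]
    exact hT.mul _ _ _

lemma run_cons (s : Slice) (w : List Slice) (g : St N) :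
    run N a (s :: w) g = run N a w (s.act N a g) := rfl

lemma run_append (w w' : List Slice) (g : St N) :
    run N a (w ++ w') g = run N a w' (run N a w g) := by simp [run, List.foldl_append]

lemma run_hw (h : Root N a) (w : List Slice) {g : St N} (hg : HW a g) : HW a (run N a w g) := by
  induction w generalizing g with
  | nil => exact hg
  | cons s w ih => exact ih ((good_act h s).hw hg)

/-- the vector `e_0` -/
def vac (i : Fin N) : St N := fun l => if l = [i] then 1 else 0

lemma vac_hw (i : Fin N) (hi : (i : ℕ) = 0) : HW a (vac i) where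
  e := by
    intro l
    match l with
    | [] => rfl
    | [k] =>
      simp only [Et, vac, List.cons.injEq, and_true, mul_ite, mul_one, mul_zero, sum_ite_eq',
        mem_univ, if_true, matE, hi]
      simp
    | k :: m :: r =>
      rw [Et_two]
      simp [crossOp, vac, Et_zero]
  k := by
    intro z hz l
    unfold vac
    split_ifs with h
    · subst h
      simp only [Kp_cons, Kp_nil, mul_one]
      rw [wt_pow hz, hi]
      simp
    · simp

end

end Pool.Agent.H843Z.CJ
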